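import Pool.Agent.K1H71.PL.GG

/-! Many points of the projective line over the rationals with a large height and a small radical:
the construction (helper71). -/

set_option autoImplicit false

namespace Pool.Agent.K1H71.PL

open Finset
open Pool.Agent.TH867.QF (Fm ev va rs Rs Rs_pos rs_dvd Pt U U_pos ht ht_pos va_pos va_le cross1
  cross2 coef_le2)
open Pool.Agent.Y679.Kf (rd rd_pos rd_dvd rd_le lr_rd sr)
open Pool.Agent.TH867.SQ (lr lr_mul lr_dvd lr_nonneg lr_le_log)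

variable {d : ℕ}

/-- the point with given values of the first two forms, up to a factor -/
def pre (L : Fm (d + 3)) (a b : ℤ) : ℤ × ℤ :=
  (L.w (Fin.succ 0) * a - L.w 0 * b, L.u 0 * b - L.u (Fin.succ 0) * a)

theorem ev_pre (L : Fm (d + 3)) (a b : ℤ) (i : Fin (d + 3)) :
    ev L (pre L a b) i = rs L i (Fin.succ 0) * a + rs L 0 i * b := by
  unfold ev pre rs; ring

theorem ev_pre0 (L : Fm (d + 3)) (a b : ℤ) :
    ev L (pre L a b) 0 = rs L 0 (Fin.succ 0) * a := by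
  unfold ev pre rs; ring

theorem ev_pre1 (L : Fm (d + 3)) (a b : ℤ) :
    ev L (pre L a b) (Fin.succ 0) = rs L 0 (Fin.succ 0) * b := by
  unfold ev pre rs; ring

/-- divide by the greatest common divisor -/
def nrm (P : ℤ × ℤ) : ℤ × ℤ := (P.1 / Int.gcd P.1 P.2, P.2 / Int.gcd P.1 P.2)

theorem nrm1 (P : ℤ × ℤ) : P.1 = Int.gcd P.1 P.2 * (nrm P).1 :=
  (Int.mul_ediv_cancel' (Int.gcd_dvd_left _ _)).symm

theorem nrm2 (P : ℤ × ℤ) : P.2 = Int.gcd P.1 P.2 * (nrm P).2 :=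
  (Int.mul_ediv_cancel' (Int.gcd_dvd_right _ _)).symm

theorem nrm_cop {P : ℤ × ℤ} (h : 0 < Int.gcd P.1 P.2) : IsCoprime (nrm P).1 (nrm P).2 := by
  rw [Int.isCoprime_iff_gcd_eq_one]
  exact Int.gcd_div_gcd_div_gcd h

theorem ev_nrm {r : ℕ} (L : Fm r) (P : ℤ × ℤ) (i : Fin r) :
    ev L P i = Int.gcd P.1 P.2 * ev L (nrm P) i := by
  have h1 := nrm1 P
  have h2 := nrm2 P
  calc ev L P i = L.u i * P.1 + L.w i * P.2 := rfl
    _ = L.u i * (Int.gcd P.1 P.2 * (nrm P).1) + L.w i * (Int.gcd P.1 P.2 * (nrm P).2) := by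
        rw [← h1, ← h2]
    _ = _ := by unfold ev; ring

theorem va_nrm {r : ℕ} (L : Fm r) (P : ℤ × ℤ) (i : Fin r) :
    va L P i = Int.gcd P.1 P.2 * va L (nrm P) i := by
  unfold va
  rw [ev_nrm, Int.natAbs_mul, Int.natAbs_natCast]

theorem lr_pow_le {p : ℕ} (hp : p.Prime) (k : ℕ) : lr (p ^ k) ≤ Real.log p := by
  unfold lr
  rcases Nat.eq_zero_or_pos k with h | h
  · rw [h]
    simp only [pow_zero, Nat.primeFactors_one, sum_empty]
    exact Real.log_natCast_nonneg _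
  · rw [Nat.primeFactors_prime_pow h.ne' hp, sum_singleton]

/-- the value of the first or second form -/
theorem lr_val_le {p k m ρ V : ℕ} (hp : p.Prime) (hm : 0 < m) (hρ : 0 < ρ) {W : ℕ}
    (hV : V ∣ ρ * (p ^ k * m)) (hW : p * m ≤ W) : lr V ≤ Real.log (ρ * W) := by
  have hpk : 0 < p ^ k := pow_pos hp.pos k
  have h0 : ρ * (p ^ k * m) ≠ 0 := (Nat.mul_pos hρ (Nat.mul_pos hpk hm)).ne'
  have h1 : lr V ≤ lr (ρ * (p ^ k * m)) := lr_dvd h0 hV
  have h2 := lr_mul ρ (p ^ k * m) hρ.ne' (Nat.mul_pos hpk hm).ne'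
  have h3 := lr_mul (p ^ k) m hpk.ne' hm.ne'
  have h4 := lr_pow_le hp k
  have h5 : lr ρ ≤ Real.log ρ := lr_le_log hρ.ne'
  have h6 : lr m ≤ Real.log m := lr_le_log hm.ne'
  have hρ' : (0 : ℝ) < ρ := by exact_mod_cast hρ
  have hp' : (0 : ℝ) < p := by exact_mod_cast hp.pos
  have hm' : (0 : ℝ) < m := by exact_mod_cast hm
  have h7 : Real.log (ρ * (p * m)) = Real.log ρ + (Real.log p + Real.log m) := by
    rw [Real.log_mul hρ'.ne' (by positivity), Real.log_mul hp'.ne' hm'.ne']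
  have h8 : Real.log (ρ * (p * m)) ≤ Real.log (ρ * W) := by
    refine Real.log_le_log (by positivity) (mul_le_mul_of_nonneg_left ?_ hρ'.le)
    exact_mod_cast hW
  linarith

/-- **Many points.** -/
theorem low_pts (L : Fm (d + 3)) : ∃ c C : ℝ, 0 < c ∧ c ≤ 1 ∧ 1 ≤ C ∧ ∀ (V : ℕ) (t : ℝ), 1 ≤ t →
    1000 * (d + 3) ≤ V → ∃ F : Finset (ℤ × ℤ), (∀ P ∈ F, Pt L P ∧ c * (t * V) ≤ (ht P : ℝ) ∧
      (∀ i, c * (t * V) ≤ (va L P i : ℝ)) ∧ (ht P : ℝ) ≤ C * (t * V) ∧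
      sr L P ≤ Real.log (C * ((V : ℝ) ^ (d + 3) * t ^ (d + 1)))) ∧
      c * (V : ℝ) ^ 2 ≤ (F.card : ℝ) := by
  classical
  have h01 : (0 : Fin (d + 3)) ≠ Fin.succ 0 := by
    intro h
    exact absurd (congrArg Fin.val h) (by simp)
  obtain ⟨ρ, hρ⟩ : ∃ ρ : ℕ, ρ = (rs L 0 (Fin.succ 0)).natAbs := ⟨_, rfl⟩
  have hrs : rs L 0 (Fin.succ 0) ≠ 0 := L.res _ _ h01
  have hρ0 : 0 < ρ := by rw [hρ]; exact Int.natAbs_pos.2 hrs
  have hρ1 : (1 : ℝ) ≤ ρ := by exact_mod_cast hρ0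
  have hρp : (0 : ℝ) < ρ := by linarith
  have hU : (1 : ℝ) ≤ U L := by exact_mod_cast U_pos L
  have hU0 : (0 : ℝ) < U L := by linarith
  have hcoef := coef_le2 L h01
  have hd0 : (0 : ℝ) ≤ d := Nat.cast_nonneg _
  obtain ⟨κ, hκ⟩ : ∃ κ : ℝ, κ = 1 / (1000 * ((d : ℝ) + 3)) := ⟨_, rfl⟩
  have hκ0 : 0 < κ := by rw [hκ]; positivity
  have hκ1 : κ ≤ 1 / 1000 := by
    rw [hκ]
    exact one_div_le_one_div_of_le (by norm_num) (by linarith)
  obtain ⟨c, hc⟩ : ∃ c : ℝ, c = min (κ / (ρ * U L)) (1 / (64 * ρ)) := ⟨_, rfl⟩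
  have hc0 : 0 < c := by rw [hc]; exact lt_min (by positivity) (by positivity)
  have hc1 : c ≤ κ / (ρ * U L) := by rw [hc]; exact min_le_left _ _
  have hc2 : c ≤ 1 / (64 * ρ) := by rw [hc]; exact min_le_right _ _
  have hc3 : c ≤ 1 := hc2.trans (by rw [div_le_one (by positivity)]; linarith)
  have hCb : 1 ≤ 36 * (ρ : ℝ) ^ 2 * (6 * (U L : ℝ) ^ 2) ^ (d + 1) := by
    refine one_le_mul_of_one_le_of_one_le ?_ (one_le_pow₀ ?_)
    · have : (1 : ℝ) ≤ (ρ : ℝ) ^ 2 := one_le_pow₀ hρ1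
      linarith
    · have : (1 : ℝ) ≤ (U L : ℝ) ^ 2 := one_le_pow₀ hU
      linarith
  refine ⟨c, 36 * (ρ : ℝ) ^ 2 * (6 * (U L : ℝ) ^ 2) ^ (d + 1) + 6 * U L, hc0, hc3, by linarith,
    fun V t ht1 hVd => ?_⟩
  have ht0 : 0 < t := by linarith
  have hV : 1 ≤ V := by omega
  have hVp : (0 : ℝ) < V := by exact_mod_cast hV
  have hVdR : 1000 * ((d : ℝ) + 3) ≤ V := by exact_mod_cast hVd
  obtain ⟨k', hk1, hk2⟩ := exists_nat_pow_near ht1 (by norm_num : (1 : ℝ) < 2)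
  obtain ⟨j', hj1, hj2⟩ := exists_nat_pow_near ht1 (by norm_num : (1 : ℝ) < 3)
  obtain ⟨k, hk⟩ : ∃ k, k = k' + 1 := ⟨_, rfl⟩
  obtain ⟨j, hj⟩ : ∃ j, j = j' + 1 := ⟨_, rfl⟩
  rw [← hk] at hk2
  rw [← hj] at hj2
  have hk3 : (2 : ℝ) ^ k ≤ 2 * t := by rw [hk, pow_succ]; linarith
  have hj3 : (3 : ℝ) ^ j ≤ 3 * t := by rw [hj, pow_succ]; linarith
  obtain ⟨Φ, hΦ⟩ : ∃ Φ : ℕ × ℕ → ℤ × ℤ, Φ = fun x =>
    pre L ((2 ^ k * x.1 : ℕ) : ℤ) ((3 ^ j * x.2 : ℕ) : ℤ) := ⟨_, rfl⟩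
  have hev0 : ∀ x, ev L (Φ x) 0 = rs L 0 (Fin.succ 0) * ((2 ^ k * x.1 : ℕ) : ℤ) := by
    intro x; rw [hΦ]; exact ev_pre0 L _ _
  have hev1 : ∀ x, ev L (Φ x) (Fin.succ 0) = rs L 0 (Fin.succ 0) * ((3 ^ j * x.2 : ℕ) : ℤ) := by
    intro x; rw [hΦ]; exact ev_pre1 L _ _
  have hev : ∀ x i, ev L (Φ x) i = rs L i (Fin.succ 0) * ((2 ^ k * x.1 : ℕ) : ℤ) +
      rs L 0 i * ((3 ^ j * x.2 : ℕ) : ℤ) := by
    intro x i; rw [hΦ]; exact ev_pre L _ _ i
  have habsva : ∀ x i, |(ev L (Φ x) i : ℝ)| = (va L (Φ x) i : ℝ) := by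
    intro x i
    unfold va
    rw [Nat.cast_natAbs, Int.cast_abs]
  obtain ⟨Q1, hQ1⟩ : ∃ Q1 : Finset (ℕ × ℕ), Q1 = (GG V).filter fun x =>
    ∀ i, κ * (t * V) ≤ (va L (Φ x) i : ℝ) := ⟨_, rfl⟩
  have hGG : ∀ x ∈ GG V, 0 < x.1 ∧ 0 < x.2 ∧ Nat.Coprime (2 ^ k * x.1) (3 ^ j * x.2) ∧
      x.1 ≤ 3 * V ∧ x.2 ≤ 2 * V := by
    intro x h1
    obtain ⟨a1, a2, a3, a4, a5, a6, a7⟩ := GG_mem h1
    exact ⟨a1, a2, cop_two_three a3 a4 a5, a6, a7⟩
  -- the number of the pairs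
  have hone : ∀ i : Fin (d + 3), (((GG V).filter fun x => (va L (Φ x) i : ℝ) <
      κ * (t * V)).card : ℝ) ≤ 3 * V * (2 * κ * V + 1) := by
    intro i
    by_cases hi : i = Fin.succ 0
    · -- the roles of the two entries are exchanged
      have h1 := few_small (V := V) ht0 hκ0.le (a := (rs L 0 i : ℝ) * 3 ^ j)
        (b := (rs L i (Fin.succ 0) : ℝ) * 2 ^ k) (by
          rw [abs_mul, abs_of_pos (by positivity : (0 : ℝ) < 3 ^ j)]
          have h2 : (1 : ℝ) ≤ |(rs L 0 i : ℝ)| := by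
            rw [hi]
            exact_mod_cast Int.one_le_abs hrs
          calc t ≤ 1 * 3 ^ j := by linarith
            _ ≤ _ := mul_le_mul_of_nonneg_right h2 (by positivity))
        (((GG V).filter fun x => (va L (Φ x) i : ℝ) < κ * (t * V)).image Prod.swap) (by
          intro y hy
          obtain ⟨x, hx, rfl⟩ := mem_image.1 hy
          obtain ⟨h2, h3⟩ := mem_filter.1 hx
          obtain ⟨a1, a2, a3, a4, a5⟩ := hGG x h2
          simp only [Prod.fst_swap, Prod.snd_swap]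
          refine ⟨by omega, a1, a4, ?_⟩
          rw [← habsva, hev] at h3
          push_cast at h3
          have e : (rs L 0 i : ℝ) * 3 ^ j * x.2 + (rs L i (Fin.succ 0) : ℝ) * 2 ^ k * x.1 =
              (rs L i (Fin.succ 0) : ℝ) * (2 ^ k * x.1) + (rs L 0 i : ℝ) * (3 ^ j * x.2) := by ring
          rw [e]
          exact h3)
      rwa [card_image_of_injective _ Prod.swap_injective] at h1
    · refine few_small (V := V) ht0 hκ0.le (a := (rs L i (Fin.succ 0) : ℝ) * 2 ^ k)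
        (b := (rs L 0 i : ℝ) * 3 ^ j) ?_ _ ?_
      · rw [abs_mul, abs_of_pos (by positivity : (0 : ℝ) < 2 ^ k)]
        have h2 : (1 : ℝ) ≤ |(rs L i (Fin.succ 0) : ℝ)| := by
          exact_mod_cast Int.one_le_abs (L.res i _ hi)
        calc t ≤ 1 * 2 ^ k := by linarith
          _ ≤ _ := mul_le_mul_of_nonneg_right h2 (by positivity)
      · intro x hx
        obtain ⟨h2, h3⟩ := mem_filter.1 hx
        obtain ⟨a1, a2, a3, a4, a5⟩ := hGG x h2
        refine ⟨a4, a2, by omega, ?_⟩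
        rw [← habsva, hev] at h3
        push_cast at h3
        have e : (rs L i (Fin.succ 0) : ℝ) * 2 ^ k * x.1 + (rs L 0 i : ℝ) * 3 ^ j * x.2 =
            (rs L i (Fin.succ 0) : ℝ) * (2 ^ k * x.1) + (rs L 0 i : ℝ) * (3 ^ j * x.2) := by ring
        rw [e]
        exact h3
  have hcard1 : ((GG V).card : ℝ) ≤ Q1.card + ((d : ℝ) + 3) * (3 * V * (2 * κ * V + 1)) := by
    have h1 : GG V ⊆ Q1 ∪ (Finset.univ : Finset (Fin (d + 3))).biUnion fun i =>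
        (GG V).filter fun x => (va L (Φ x) i : ℝ) < κ * (t * V) := by
      intro x hx
      rw [mem_union, mem_biUnion]
      by_cases h : ∀ i, κ * (t * V) ≤ (va L (Φ x) i : ℝ)
      · left
        rw [hQ1]
        exact mem_filter.2 ⟨hx, h⟩
      · right
        push Not at h
        obtain ⟨i, hi⟩ := h
        exact ⟨i, mem_univ _, mem_filter.2 ⟨hx, hi⟩⟩
    have h2 : ((GG V).card : ℝ) ≤ Q1.card + ∑ i : Fin (d + 3), (((GG V).filter fun x =>
        (va L (Φ x) i : ℝ) < κ * (t * V)).card : ℝ) := by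
      exact_mod_cast (card_le_card h1).trans ((card_union_le _ _).trans
        (Nat.add_le_add_left card_biUnion_le _))
    refine h2.trans (add_le_add le_rfl ((Finset.sum_le_sum fun i _ => hone i).trans (le_of_eq ?_)))
    rw [sum_const, card_univ, Fintype.card_fin, nsmul_eq_mul]
    push_cast
    ring
  have hcard2 : (V : ℝ) ^ 2 / 64 ≤ (Q1.card : ℝ) := by
    have h1 := GG_card V hV
    have h2 : ((d : ℝ) + 3) * (3 * V * (2 * κ * V + 1)) ≤ 9 / 1000 * (V : ℝ) ^ 2 := by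
      have e1 : ((d : ℝ) + 3) * (3 * V * (2 * κ * V + 1)) =
          6 * (((d : ℝ) + 3) * κ) * (V : ℝ) ^ 2 + 3 * (((d : ℝ) + 3) * V) := by ring
      have e2 : ((d : ℝ) + 3) * κ = 1 / 1000 := by rw [hκ]; field_simp
      have e3 : ((d : ℝ) + 3) * V ≤ (V : ℝ) ^ 2 / 1000 := by
        rw [sq, mul_div_right_comm]
        exact mul_le_mul_of_nonneg_right (by linarith) hVp.le
      rw [e1, e2]
      linarith
    have h3 : 0 < (V : ℝ) ^ 2 := by positivity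
    linarith
  -- the greatest common divisors
  have hg : ∀ x ∈ Q1, 0 < Int.gcd (Φ x).1 (Φ x).2 ∧ Int.gcd (Φ x).1 (Φ x).2 ∣ ρ := by
    intro x hx
    rw [hQ1] at hx
    obtain ⟨h1, h2⟩ := mem_filter.1 hx
    obtain ⟨a1, a2, a3, -⟩ := hGG x h1
    obtain ⟨g, hg⟩ : ∃ g : ℕ, g = Int.gcd (Φ x).1 (Φ x).2 := ⟨_, rfl⟩
    rw [← hg]
    constructor
    · rw [Nat.pos_iff_ne_zero]
      intro h0
      rw [hg, Int.gcd_eq_zero_iff] at h0
      have h3 : va L (Φ x) 0 = 0 := by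
        unfold va ev
        rw [h0.1, h0.2]
        simp
      have h4 := h2 0
      rw [h3, Nat.cast_zero] at h4
      have h5 : 0 < κ * (t * V) := by positivity
      linarith
    · have hd0 : g ∣ (ev L (Φ x) 0).natAbs := by
        rw [ev_nrm, ← hg, Int.natAbs_mul, Int.natAbs_natCast]
        exact dvd_mul_right _ _
      have hd1 : g ∣ (ev L (Φ x) (Fin.succ 0)).natAbs := by
        rw [ev_nrm, ← hg, Int.natAbs_mul, Int.natAbs_natCast]
        exact dvd_mul_right _ _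
      rw [hev0, Int.natAbs_mul, Int.natAbs_natCast, ← hρ] at hd0
      rw [hev1, Int.natAbs_mul, Int.natAbs_natCast, ← hρ] at hd1
      have h3 := Nat.dvd_gcd hd0 hd1
      rw [Nat.gcd_mul_left, a3.gcd_eq_one, mul_one] at h3
      exact h3
  -- the set of points
  obtain ⟨F, hF⟩ : ∃ F : Finset (ℤ × ℤ), F = Q1.image (fun x => nrm (Φ x)) := ⟨_, rfl⟩
  have hcardF : Q1.card ≤ ρ * F.card := by
    rw [hF]
    refine card_le_mul_card_image Q1 ρ fun P _ => ?_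
    have h1 : (Q1.filter fun x => nrm (Φ x) = P).card ≤ (Finset.Icc 1 ρ).card := by
      refine card_le_card_of_injOn (fun x => Int.gcd (Φ x).1 (Φ x).2) ?_ ?_
      · intro x hx
        obtain ⟨h1, h2⟩ := mem_filter.1 (mem_coe.1 hx)
        obtain ⟨h3, h4⟩ := hg x h1
        exact mem_coe.2 (mem_Icc.2 ⟨h3, Nat.le_of_dvd hρ0 h4⟩)
      · intro x hx y hy hxy
        obtain ⟨h1, h2⟩ := mem_filter.1 (mem_coe.1 hx)
        obtain ⟨h3, h4⟩ := mem_filter.1 (mem_coe.1 hy)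
        simp only at hxy
        have e0 : ev L (Φ x) 0 = ev L (Φ y) 0 := by
          rw [ev_nrm L (Φ x), ev_nrm L (Φ y), hxy, h2, h4]
        have e1 : ev L (Φ x) (Fin.succ 0) = ev L (Φ y) (Fin.succ 0) := by
          rw [ev_nrm L (Φ x), ev_nrm L (Φ y), hxy, h2, h4]
        rw [hev0, hev0] at e0
        rw [hev1, hev1] at e1
        have f0 : 2 ^ k * x.1 = 2 ^ k * y.1 := by exact_mod_cast mul_left_cancel₀ hrs e0
        have f1 : 3 ^ j * x.2 = 3 ^ j * y.2 := by exact_mod_cast mul_left_cancel₀ hrs e1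
        exact Prod.ext (Nat.eq_of_mul_eq_mul_left (by positivity) f0)
          (Nat.eq_of_mul_eq_mul_left (by positivity) f1)
    refine h1.trans (le_of_eq ?_)
    rw [Nat.card_Icc]
    omega
  refine ⟨F, fun P hP => ?_, ?_⟩
  swap
  · have h1 : (Q1.card : ℝ) ≤ ρ * (F.card : ℝ) := by exact_mod_cast hcardF
    have h2 : (V : ℝ) ^ 2 / 64 ≤ ρ * (F.card : ℝ) := hcard2.trans h1
    calc c * (V : ℝ) ^ 2 ≤ 1 / (64 * ρ) * (V : ℝ) ^ 2 :=
          mul_le_mul_of_nonneg_right hc2 (by positivity)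
      _ = ((V : ℝ) ^ 2 / 64) / ρ := by field_simp
      _ ≤ (F.card : ℝ) := by rw [div_le_iff₀ hρp]; linarith
  rw [hF] at hP
  obtain ⟨x, hx, rfl⟩ := mem_image.1 hP
  obtain ⟨hg0, hgρ⟩ := hg x hx
  have hx' := hx
  rw [hQ1] at hx'
  obtain ⟨hxG, hxe⟩ := mem_filter.1 hx'
  obtain ⟨a1, a2, a3, a4, a5⟩ := hGG x hxG
  obtain ⟨g, hgg⟩ : ∃ g : ℕ, g = Int.gcd (Φ x).1 (Φ x).2 := ⟨_, rfl⟩
  rw [← hgg] at hg0 hgρ
  have hgle : g ≤ ρ := Nat.le_of_dvd hρ0 hgρ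
  have hgleR : (g : ℝ) ≤ ρ := by exact_mod_cast hgle
  have hvan : ∀ i, (va L (Φ x) i : ℝ) = g * va L (nrm (Φ x)) i := by
    intro i
    have h1 := va_nrm L (Φ x) i
    rw [← hgg] at h1
    exact_mod_cast h1
  have hvlow : ∀ i, κ / ρ * (t * V) ≤ (va L (nrm (Φ x)) i : ℝ) := by
    intro i
    have h1 := hxe i
    rw [hvan] at h1
    have h2 : κ * (t * V) ≤ ρ * va L (nrm (Φ x)) i :=
      h1.trans (mul_le_mul_of_nonneg_right hgleR (Nat.cast_nonneg _))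
    calc κ / ρ * (t * V) = κ * (t * V) / ρ := by ring
      _ ≤ _ := by rw [div_le_iff₀ hρp]; linarith
  have hpt : Pt L (nrm (Φ x)) := by
    refine ⟨nrm_cop (by rw [← hgg]; exact hg0), fun i h0 => ?_⟩
    have h1 := hvlow i
    have h2 : va L (nrm (Φ x)) i = 0 := by unfold va; rw [h0]; rfl
    rw [h2, Nat.cast_zero] at h1
    have h3 : 0 < κ / ρ * (t * V) := by positivity
    linarith
  have hcκ : c ≤ κ / ρ / U L := by
    refine hc1.trans (le_of_eq ?_)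
    field_simp
  have hcκ' : c ≤ κ / ρ := by
    refine hcκ.trans ?_
    rw [div_le_iff₀ hU0]
    exact le_mul_of_one_le_right (by positivity) hU
  have hv0 : g * va L (nrm (Φ x)) 0 = ρ * (2 ^ k * x.1) := by
    have h1 := va_nrm L (Φ x) 0
    rw [← hgg] at h1
    rw [← h1]
    unfold va
    rw [hev0, Int.natAbs_mul, Int.natAbs_natCast, ← hρ]
  have hv1 : g * va L (nrm (Φ x)) (Fin.succ 0) = ρ * (3 ^ j * x.2) := by
    have h1 := va_nrm L (Φ x) (Fin.succ 0)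
    rw [← hgg] at h1
    rw [← h1]
    unfold va
    rw [hev1, Int.natAbs_mul, Int.natAbs_natCast, ← hρ]
  -- size from below
  have hlow : c * (t * V) ≤ (ht (nrm (Φ x)) : ℝ) := by
    have h1 : (va L (nrm (Φ x)) 0 : ℝ) ≤ U L * ht (nrm (Φ x)) := by
      exact_mod_cast va_le L (nrm (Φ x)) 0
    have h2 := (hvlow 0).trans h1
    calc c * (t * V) ≤ κ / ρ / U L * (t * V) := mul_le_mul_of_nonneg_right hcκ (by positivity)
      _ = (κ / ρ * (t * V)) / U L := by ring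
      _ ≤ _ := by rw [div_le_iff₀ hU0]; linarith
  -- size from above
  have hA1 : ((2 : ℝ) ^ k * x.1) ≤ 6 * (t * V) := by
    have h1 : (x.1 : ℝ) ≤ 3 * V := by exact_mod_cast a4
    calc (2 : ℝ) ^ k * x.1 ≤ (2 * t) * (3 * V) := mul_le_mul hk3 h1 (by positivity) (by positivity)
      _ = _ := by ring
  have hB1 : ((3 : ℝ) ^ j * x.2) ≤ 6 * (t * V) := by
    have h1 : (x.2 : ℝ) ≤ 2 * V := by exact_mod_cast a5
    calc (3 : ℝ) ^ j * x.2 ≤ (3 * t) * (2 * V) := mul_le_mul hj3 h1 (by positivity) (by positivity)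
      _ = _ := by ring
  have hup : (ht (nrm (Φ x)) : ℝ) ≤ U L * (6 * (t * V)) := by
    have hle1 : (nrm (Φ x)).1.natAbs ≤ (Φ x).1.natAbs := by
      have h1 := nrm1 (Φ x)
      rw [← hgg] at h1
      have h2 : (Φ x).1.natAbs = g * (nrm (Φ x)).1.natAbs := by
        conv_lhs => rw [h1]
        rw [Int.natAbs_mul, Int.natAbs_natCast]
      rw [h2]
      exact Nat.le_mul_of_pos_left _ hg0
    have hle2 : (nrm (Φ x)).2.natAbs ≤ (Φ x).2.natAbs := by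
      have h1 := nrm2 (Φ x)
      rw [← hgg] at h1
      have h2 : (Φ x).2.natAbs = g * (nrm (Φ x)).2.natAbs := by
        conv_lhs => rw [h1]
        rw [Int.natAbs_mul, Int.natAbs_natCast]
      rw [h2]
      exact Nat.le_mul_of_pos_left _ hg0
    have hc4 : ((L.u 0).natAbs : ℝ) + (L.w 0).natAbs + ((L.u (Fin.succ 0)).natAbs +
        (L.w (Fin.succ 0)).natAbs) ≤ U L := by exact_mod_cast hcoef
    have n1 : (0 : ℝ) ≤ ((L.u 0).natAbs : ℝ) := Nat.cast_nonneg _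
    have n2 : (0 : ℝ) ≤ ((L.w 0).natAbs : ℝ) := Nat.cast_nonneg _
    have n3 : (0 : ℝ) ≤ ((L.u (Fin.succ 0)).natAbs : ℝ) := Nat.cast_nonneg _
    have n4 : (0 : ℝ) ≤ ((L.w (Fin.succ 0)).natAbs : ℝ) := Nat.cast_nonneg _
    have hp1 : ((Φ x).1.natAbs : ℝ) ≤ U L * (6 * (t * V)) := by
      have h1 : (Φ x).1.natAbs ≤ (L.w (Fin.succ 0)).natAbs * (2 ^ k * x.1) +
          (L.w 0).natAbs * (3 ^ j * x.2) := by
        rw [hΦ]
        unfold pre
        simp only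
        refine (Int.natAbs_sub_le _ _).trans ?_
        rw [Int.natAbs_mul, Int.natAbs_mul, Int.natAbs_natCast, Int.natAbs_natCast]
      have h2 : ((Φ x).1.natAbs : ℝ) ≤ (L.w (Fin.succ 0)).natAbs * (2 ^ k * x.1) +
          (L.w 0).natAbs * (3 ^ j * x.2) := by exact_mod_cast h1
      calc ((Φ x).1.natAbs : ℝ) ≤ (L.w (Fin.succ 0)).natAbs * (6 * (t * V)) +
            (L.w 0).natAbs * (6 * (t * V)) := h2.trans (add_le_add
              (mul_le_mul_of_nonneg_left hA1 n4) (mul_le_mul_of_nonneg_left hB1 n2))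
        _ = ((L.w (Fin.succ 0)).natAbs + (L.w 0).natAbs) * (6 * (t * V)) := by ring
        _ ≤ _ := mul_le_mul_of_nonneg_right (by linarith) (by positivity)
    have hp2 : ((Φ x).2.natAbs : ℝ) ≤ U L * (6 * (t * V)) := by
      have h1 : (Φ x).2.natAbs ≤ (L.u 0).natAbs * (3 ^ j * x.2) +
          (L.u (Fin.succ 0)).natAbs * (2 ^ k * x.1) := by
        rw [hΦ]
        unfold pre
        simp only
        refine (Int.natAbs_sub_le _ _).trans ?_
        rw [Int.natAbs_mul, Int.natAbs_mul, Int.natAbs_natCast, Int.natAbs_natCast]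
      have h2 : ((Φ x).2.natAbs : ℝ) ≤ (L.u 0).natAbs * (3 ^ j * x.2) +
          (L.u (Fin.succ 0)).natAbs * (2 ^ k * x.1) := by exact_mod_cast h1
      calc ((Φ x).2.natAbs : ℝ) ≤ (L.u 0).natAbs * (6 * (t * V)) +
            (L.u (Fin.succ 0)).natAbs * (6 * (t * V)) := h2.trans (add_le_add
              (mul_le_mul_of_nonneg_left hB1 n1) (mul_le_mul_of_nonneg_left hA1 n3))
        _ = ((L.u 0).natAbs + (L.u (Fin.succ 0)).natAbs) * (6 * (t * V)) := by ring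
        _ ≤ _ := mul_le_mul_of_nonneg_right (by linarith) (by positivity)
    rcases max_choice (nrm (Φ x)).1.natAbs (nrm (Φ x)).2.natAbs with h | h
    · unfold ht
      rw [h]
      exact le_trans (by exact_mod_cast hle1) hp1
    · unfold ht
      rw [h]
      exact le_trans (by exact_mod_cast hle2) hp2
  refine ⟨hpt, hlow, fun i => (mul_le_mul_of_nonneg_right hcκ' (by positivity)).trans (hvlow i),
    ?_, ?_⟩
  · calc (ht (nrm (Φ x)) : ℝ) ≤ U L * (6 * (t * V)) := hup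
      _ = (6 * U L) * (t * V) := by ring
      _ ≤ _ := mul_le_mul_of_nonneg_right (by linarith) (by positivity)
  -- the radical
  have r0 : lr (va L (nrm (Φ x)) 0) ≤ Real.log (ρ * ((6 * V : ℕ) : ℝ)) :=
    lr_val_le Nat.prime_two a1 hρ0 (V := va L (nrm (Φ x)) 0) (k := k)
      (by rw [← hv0]; exact dvd_mul_left _ _) (by omega)
  have r1 : lr (va L (nrm (Φ x)) (Fin.succ 0)) ≤ Real.log (ρ * ((6 * V : ℕ) : ℝ)) :=
    lr_val_le Nat.prime_three a2 hρ0 (V := va L (nrm (Φ x)) (Fin.succ 0)) (k := j)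
      (by rw [← hv1]; exact dvd_mul_left _ _) (by omega)
  have r2 : ∀ i : Fin (d + 3), lr (va L (nrm (Φ x)) i) ≤
      Real.log (6 * (U L : ℝ) ^ 2 * (t * V)) := by
    intro i
    refine (lr_le_log (va_pos hpt i).ne').trans ?_
    refine Real.log_le_log (by exact_mod_cast va_pos hpt i) ?_
    have h1 : (va L (nrm (Φ x)) i : ℝ) ≤ U L * ht (nrm (Φ x)) := by
      exact_mod_cast va_le L (nrm (Φ x)) i
    calc (va L (nrm (Φ x)) i : ℝ) ≤ U L * ht (nrm (Φ x)) := h1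
      _ ≤ U L * (U L * (6 * (t * V))) := mul_le_mul_of_nonneg_left hup hU0.le
      _ = _ := by ring
  have hsum : sr L (nrm (Φ x)) ≤ Real.log (ρ * ((6 * V : ℕ) : ℝ)) +
      (Real.log (ρ * ((6 * V : ℕ) : ℝ)) + ((d : ℝ) + 1) *
        Real.log (6 * (U L : ℝ) ^ 2 * (t * V))) := by
    unfold sr
    rw [Fin.sum_univ_succ, Fin.sum_univ_succ]
    refine add_le_add r0 (add_le_add r1 ?_)
    refine (Finset.sum_le_sum fun i _ => r2 _).trans (le_of_eq ?_)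
    rw [sum_const, card_univ, Fintype.card_fin, nsmul_eq_mul]
    push_cast
    ring
  have e1 : (0 : ℝ) < ρ * ((6 * V : ℕ) : ℝ) := by push_cast; positivity
  have e2 : (0 : ℝ) < 6 * (U L : ℝ) ^ 2 * (t * V) := by positivity
  have e3 : ((d : ℝ) + 1) * Real.log (6 * (U L : ℝ) ^ 2 * (t * V)) =
      Real.log ((6 * (U L : ℝ) ^ 2 * (t * V)) ^ (d + 1)) := by
    rw [Real.log_pow]
    push_cast
    ring
  have e4 : Real.log (ρ * ((6 * V : ℕ) : ℝ)) + (Real.log (ρ * ((6 * V : ℕ) : ℝ)) +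
      ((d : ℝ) + 1) * Real.log (6 * (U L : ℝ) ^ 2 * (t * V))) =
      Real.log (36 * (ρ : ℝ) ^ 2 * (6 * (U L : ℝ) ^ 2) ^ (d + 1) *
        ((V : ℝ) ^ (d + 3) * t ^ (d + 1))) := by
    rw [e3, ← Real.log_mul e1.ne' (by positivity), ← Real.log_mul e1.ne' (by positivity)]
    congr 1
    push_cast
    rw [mul_pow (6 * (U L : ℝ) ^ 2), mul_pow t]
    ring
  rw [e4] at hsum
  refine hsum.trans (Real.log_le_log (by positivity) ?_)
  exact mul_le_mul_of_nonneg_right (by linarith) (by positivity)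

/-- **Many points of large height.** -/
theorem tail_low (L : Fm (d + 3)) : ∃ c C : ℝ, 0 < c ∧ 1 ≤ C ∧ ∀ X T : ℝ, 1 ≤ X → 1 ≤ T →
    X ≤ T ^ (d + 3) → T ^ (d + 1) ≤ c * X → ∃ F : Finset (ℤ × ℤ),
    (∀ P ∈ F, Pt L P ∧ sr L P ≤ Real.log X ∧ T ≤ (ht P : ℝ) ∧ (ht P : ℝ) ≤ C * T ∧
      ∀ i, T ≤ (va L P i : ℝ)) ∧
      c * (X * (T ^ (d + 1))⁻¹) ≤ (F.card : ℝ) := by
  obtain ⟨c, C, hc, hc1, hC, h⟩ := low_pts L
  have hC0 : 0 < C := by linarith
  obtain ⟨κ, hκ⟩ : ∃ κ : ℝ, κ = c ^ (d + 1) / C := ⟨_, rfl⟩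
  have hκ0 : 0 < κ := by rw [hκ]; positivity
  obtain ⟨c0, hc0⟩ : ∃ c0 : ℝ, c0 = min (κ / (2000 * (d + 3)) ^ 2) (c * κ / 4) := ⟨_, rfl⟩
  have hc00 : 0 < c0 := by rw [hc0]; exact lt_min (by positivity) (by positivity)
  have hc01 : c0 ≤ κ / (2000 * (d + 3)) ^ 2 := by rw [hc0]; exact min_le_left _ _
  have hc02 : c0 ≤ c * κ / 4 := by rw [hc0]; exact min_le_right _ _
  refine ⟨c0, C / c, hc00, ?_, fun X T hX hT hXT hTX => ?_⟩
  · rw [le_div_iff₀ hc]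
    linarith
  have hX0 : 0 < X := by linarith
  have hT0 : 0 < T := by linarith
  obtain ⟨Z, hZ⟩ : ∃ Z : ℝ, Z = Real.sqrt (κ * (X * (T ^ (d + 1))⁻¹)) := ⟨_, rfl⟩
  have hE : 0 < κ * (X * (T ^ (d + 1))⁻¹) := by positivity
  have hZ2 : Z ^ 2 = κ * (X * (T ^ (d + 1))⁻¹) := by rw [hZ]; exact Real.sq_sqrt hE.le
  have hZ0 : 0 < Z := by rw [hZ]; exact Real.sqrt_pos.2 hE
  have hZbig : (2000 * ((d : ℝ) + 3)) ^ 2 ≤ Z ^ 2 := by
    rw [hZ2]
    have h1 : T ^ (d + 1) ≤ κ / (2000 * (d + 3)) ^ 2 * X :=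
      hTX.trans (mul_le_mul_of_nonneg_right hc01 hX0.le)
    have h2 : T ^ (d + 1) * (2000 * (d + 3)) ^ 2 ≤ κ * X := by
      calc T ^ (d + 1) * (2000 * ((d : ℝ) + 3)) ^ 2 ≤
            (κ / (2000 * (d + 3)) ^ 2 * X) * (2000 * (d + 3)) ^ 2 :=
            mul_le_mul_of_nonneg_right h1 (by positivity)
        _ = κ * X := by field_simp
    have h3 : κ * (X * (T ^ (d + 1))⁻¹) = κ * X / T ^ (d + 1) := by ring
    rw [h3, le_div_iff₀ (by positivity)]
    linarith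
  have hZbig' : 2000 * ((d : ℝ) + 3) ≤ Z :=
    (pow_le_pow_iff_left₀ (by positivity) hZ0.le two_ne_zero).1 hZbig
  have hZ1 : 1 ≤ Z := by
    have h2 : (0 : ℝ) ≤ d := Nat.cast_nonneg _
    linarith
  obtain ⟨V, hV⟩ : ∃ V : ℕ, V = ⌊Z⌋₊ := ⟨_, rfl⟩
  have hV1 : 1 ≤ V := by rw [hV]; exact Nat.le_floor (by push_cast; exact hZ1)
  have hVle : (V : ℝ) ≤ Z := by rw [hV]; exact Nat.floor_le hZ0.le
  have hVp : (0 : ℝ) < V := by exact_mod_cast hV1
  have hVge : Z ≤ 2 * V := by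
    have h1 : Z - 1 < V := by rw [hV]; exact Nat.sub_one_lt_floor _
    have h2 : (1 : ℝ) ≤ V := by exact_mod_cast hV1
    linarith
  have hVd : 1000 * (d + 3) ≤ V := by
    have h2 : 1000 * ((d : ℝ) + 3) ≤ V := by linarith
    exact_mod_cast h2
  obtain ⟨t, ht⟩ : ∃ t : ℝ, t = T / (c * V) := ⟨_, rfl⟩
  have ht1 : 1 ≤ t := by
    rw [ht, le_div_iff₀ (by positivity), one_mul]
    have h1 : (c * (V : ℝ)) ^ 2 ≤ T ^ 2 := by
      have h2 : (c * (V : ℝ)) ^ 2 ≤ (V : ℝ) ^ 2 := by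
        refine pow_le_pow_left₀ (by positivity) ?_ 2
        exact mul_le_of_le_one_left hVp.le hc1
      have h3 : (V : ℝ) ^ 2 ≤ Z ^ 2 := pow_le_pow_left₀ hVp.le hVle 2
      have h4 : Z ^ 2 ≤ T ^ 2 := by
        rw [hZ2]
        have h5 : κ ≤ 1 := by
          rw [hκ, div_le_one hC0]
          exact (pow_le_one₀ hc.le hc1).trans hC
        calc κ * (X * (T ^ (d + 1))⁻¹) ≤ 1 * (T ^ (d + 3) * (T ^ (d + 1))⁻¹) := by
              refine mul_le_mul h5 ?_ (by positivity) zero_le_one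
              exact mul_le_mul_of_nonneg_right hXT (by positivity)
          _ = T ^ 2 := by
              rw [one_mul, show d + 3 = 2 + (d + 1) by omega, pow_add]
              field_simp
      exact h2.trans (h3.trans h4)
    exact (pow_le_pow_iff_left₀ (by positivity) hT0.le two_ne_zero).1 h1
  obtain ⟨F, hF1, hF2⟩ := h V t ht1 hVd
  have hctV : c * (t * V) = T := by
    rw [ht]
    field_simp
  refine ⟨F, fun P hP => ?_, ?_⟩
  · obtain ⟨g1, g2, g4, g5, g3⟩ := hF1 P hP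
    rw [hctV] at g2 g4
    refine ⟨g1, g3.trans (Real.log_le_log (by positivity) ?_), g2, g5.trans (le_of_eq ?_), g4⟩
    · have e1 : (V : ℝ) ^ (d + 3) * t ^ (d + 1) = (V : ℝ) ^ 2 * (T / c) ^ (d + 1) := by
        rw [ht, show d + 3 = 2 + (d + 1) by omega, pow_add, mul_assoc, ← mul_pow]
        congr 2
        field_simp
      rw [e1]
      have h2 : (V : ℝ) ^ 2 ≤ Z ^ 2 := pow_le_pow_left₀ hVp.le hVle 2
      calc C * ((V : ℝ) ^ 2 * (T / c) ^ (d + 1)) ≤ C * (Z ^ 2 * (T / c) ^ (d + 1)) := by gcongr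
        _ = X := by
            rw [hZ2, hκ, div_pow]
            field_simp
    · rw [← hctV]
      field_simp
  · refine le_trans ?_ hF2
    have h1 : Z ^ 2 ≤ (2 * (V : ℝ)) ^ 2 := pow_le_pow_left₀ hZ0.le hVge 2
    rw [hZ2] at h1
    have h2 : κ * (X * (T ^ (d + 1))⁻¹) / 4 ≤ (V : ℝ) ^ 2 := by linarith
    calc c0 * (X * (T ^ (d + 1))⁻¹) ≤ c * κ / 4 * (X * (T ^ (d + 1))⁻¹) :=
          mul_le_mul_of_nonneg_right hc02 (by positivity)
      _ = c * (κ * (X * (T ^ (d + 1))⁻¹) / 4) := by ring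
      _ ≤ _ := mul_le_mul_of_nonneg_left h2 hc.le

end Pool.Agent.K1H71.PL
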