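import Pool.Agent.K1H71.PL.Sum

/-! Points of the projective line over the rationals of given size and bounded radical
(helper71). -/

set_option autoImplicit false

namespace Pool.Agent.K1H71.PL

open Finset
open Pool.Agent.TH867.QF (Fm ev va rs Rs Rs_pos rs_dvd Pt U U_pos ht ht_pos va_pos va_le ht_le
  cross1 cross2)
open Pool.Agent.Y679.Kf (rd rd_pos rd_dvd lr_rd sr)
open Pool.Agent.TH867.SQ (lr)

theorem inj_pair {r : ℕ} (L : Fm r) {i j : Fin r} (hij : i ≠ j) :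
    Function.Injective (fun P : ℤ × ℤ => (ev L P i, ev L P j)) := by
  intro P Q hPQ
  simp only [Prod.mk.injEq] at hPQ
  obtain ⟨h1, h2⟩ := hPQ
  have hr := L.res i j hij
  have a1 := cross1 L P i j
  have a2 := cross1 L Q i j
  have b1 := cross2 L P i j
  have b2 := cross2 L Q i j
  rw [h1, h2, ← a2] at a1
  rw [h1, h2, ← b2] at b1
  exact Prod.ext (mul_left_cancel₀ hr a1) (mul_left_cancel₀ hr b1)

/-- points with a value whose quotient by its radical is large -/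
theorem large_pts {d : ℕ} (L : Fm (d + 3)) (ε : ℝ) (hε : 0 < ε) : ∃ C : ℝ, 0 < C ∧ ∀ T : ℝ,
    1 ≤ T → ∀ F : Finset (ℤ × ℤ), (∀ P ∈ F, Pt L P ∧ (ht P : ℝ) ≤ T ∧
      ∃ i, T ^ (1 / ((d : ℝ) + 3)) < (wq (va L P i) : ℝ)) →
    (F.card : ℝ) ≤ C * T ^ (2 - 1 / ((d : ℝ) + 3) + ε) := by
  classical
  obtain ⟨D, hD, h⟩ := large_wq ε hε
  have hU : (1 : ℝ) ≤ U L := by exact_mod_cast U_pos L
  have hU0 : (0 : ℝ) < U L := by linarith
  refine ⟨((d : ℝ) + 3) * (6 * D * (U L : ℝ) ^ (2 + ε)), by positivity, fun T hT F hF => ?_⟩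
  have hT0 : 0 < T := by linarith
  obtain ⟨N, hN⟩ : ∃ N : ℕ, N = ⌊U L * T⌋₊ := ⟨_, rfl⟩
  have hUT : 1 ≤ U L * T := one_le_mul_of_one_le_of_one_le hU hT
  have hN1 : 1 ≤ N := by rw [hN]; exact Nat.le_floor (by push_cast; exact hUT)
  have hNle : (N : ℝ) ≤ U L * T := by rw [hN]; exact Nat.floor_le (by positivity)
  obtain ⟨W, hW⟩ : ∃ W : ℝ, W = T ^ (1 / ((d : ℝ) + 3)) := ⟨_, rfl⟩
  have hW0 : 0 < W := by rw [hW]; positivity
  have hV := h N hN1 W hW0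
  obtain ⟨V, hVd⟩ : ∃ V : Finset ℕ, V = (Finset.Icc 1 N).filter fun n => W < (wq n : ℝ) :=
    ⟨_, rfl⟩
  rw [← hVd] at hV
  have hva : ∀ P ∈ F, ∀ i, va L P i ≤ N := by
    intro P hP i
    rw [hN]
    refine Nat.le_floor ?_
    have h5 : (va L P i : ℝ) ≤ U L * ht P := by exact_mod_cast va_le L P i
    exact h5.trans (mul_le_mul_of_nonneg_left (hF P hP).2.1 (by positivity))
  obtain ⟨F3, hF3⟩ : ∃ F3 : Fin (d + 3) → Finset (ℤ × ℤ), F3 = fun i => F.filter fun P =>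
    W < (wq (va L P i) : ℝ) := ⟨_, rfl⟩
  have hcov : F ⊆ (Finset.univ : Finset (Fin (d + 3))).biUnion F3 := by
    intro P hP
    obtain ⟨-, -, i, hi⟩ := hF P hP
    rw [mem_biUnion]
    refine ⟨i, mem_univ i, ?_⟩
    rw [hF3]
    rw [← hW] at hi
    exact mem_filter.2 ⟨hP, hi⟩
  have hi : ∀ i, ((F3 i).card : ℝ) ≤
      6 * D * (U L : ℝ) ^ (2 + ε) * T ^ (2 - 1 / ((d : ℝ) + 3) + ε) := by
    intro i
    obtain ⟨j, hij⟩ := ex_ne (by omega : 2 ≤ d + 3) i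
    have hmem : ∀ P ∈ F3 i, (ev L P i, ev L P j) ∈
        (V.image (fun n : ℕ => (n : ℤ)) ∪ V.image (fun n : ℕ => -(n : ℤ))) ×ˢ
          (Finset.Icc (-(N : ℤ)) N) := by
      intro P hP
      rw [hF3] at hP
      obtain ⟨h1, h2⟩ := mem_filter.1 hP
      have h3 := hva P h1 i
      have h4 := hva P h1 j
      have h5 : va L P i ∈ V := by
        rw [hVd]
        exact mem_filter.2 ⟨mem_Icc.2 ⟨va_pos (hF P h1).1 i, h3⟩, h2⟩
      rw [mem_product, mem_union, mem_image, mem_image, mem_Icc]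
      simp only
      refine ⟨?_, ?_⟩
      · rcases le_total 0 (ev L P i) with h6 | h6
        · left
          refine ⟨va L P i, h5, ?_⟩
          unfold va
          omega
        · right
          refine ⟨va L P i, h5, ?_⟩
          unfold va
          omega
      · unfold va at h4
        omega
    have hcard : (F3 i).card ≤ (2 * V.card) * (2 * N + 1) := by
      refine (Finset.card_le_card_of_injOn _ hmem (inj_pair L hij).injOn).trans ?_
      rw [card_product, Int.card_Icc]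
      have h1 : (V.image (fun n : ℕ => (n : ℤ)) ∪ V.image (fun n : ℕ => -(n : ℤ))).card ≤
          2 * V.card := by
        refine (card_union_le _ _).trans ?_
        have h2 : (V.image (fun n : ℕ => (n : ℤ))).card ≤ V.card := card_image_le
        have h3 : (V.image (fun n : ℕ => -(n : ℤ))).card ≤ V.card := card_image_le
        omega
      refine Nat.mul_le_mul h1 (le_of_eq ?_)
      omega
    have h1 : ((F3 i).card : ℝ) ≤ (2 * V.card) * (2 * N + 1) := by exact_mod_cast hcard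
    have hN1' : (1 : ℝ) ≤ N := by exact_mod_cast hN1
    have hNp : (0 : ℝ) < N := by linarith
    calc ((F3 i).card : ℝ) ≤ (2 * V.card) * (2 * N + 1) := h1
      _ ≤ (2 * (D * (N : ℝ) ^ (1 + ε) / W)) * (3 * N) := by gcongr; linarith
      _ = 6 * D * (N : ℝ) ^ (2 + ε) / W := by
          have : (N : ℝ) ^ (2 + ε) = (N : ℝ) ^ (1 + ε) * N := by
            rw [show (2 + ε) = (1 + ε) + 1 by ring, Real.rpow_add hNp, Real.rpow_one]
          rw [this]; ring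
      _ ≤ 6 * D * (U L * T) ^ (2 + ε) / W := by gcongr
      _ = _ := by
          rw [Real.mul_rpow hU0.le hT0.le, hW,
            show (2 - 1 / ((d : ℝ) + 3) + ε) = (2 + ε) - 1 / ((d : ℝ) + 3) by ring,
            Real.rpow_sub hT0]
          ring
  have h1 : (F.card : ℝ) ≤ ∑ i, ((F3 i).card : ℝ) := by
    exact_mod_cast (card_le_card hcov).trans card_biUnion_le
  refine h1.trans ((Finset.sum_le_sum fun i _ => hi i).trans (le_of_eq ?_))
  rw [sum_const, card_univ, Fintype.card_fin, nsmul_eq_mul]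
  push_cast
  ring

theorem prod_wq_ge {d : ℕ} {L : Fm (d + 3)} {T Y : ℝ} (hT : 0 < T) (hY : 0 < Y) {P : ℤ × ℤ}
    (hpt : Pt L P) (hh : T / 2 < (ht P : ℝ)) (hsr : sr L P ≤ Real.log Y) {i0 : Fin (d + 3)}
    (hmin : ∀ j, va L P i0 ≤ va L P j) {z : ℝ} (hz : 0 ≤ z) (hzv : z ≤ (va L P i0 : ℝ)) :
    z * (T / (2 * U L)) ^ (d + 2) / Y ≤ ∏ i, (wq (va L P i) : ℝ) := by
  classical
  have hU0 : (0 : ℝ) < U L := by exact_mod_cast U_pos L
  have hrdp : (0 : ℝ) < ∏ i, (rd (va L P i) : ℝ) :=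
    Finset.prod_pos fun i _ => by exact_mod_cast rd_pos _
  have h1 : (∏ i, (rd (va L P i) : ℝ)) ≤ Y := by
    rw [← Real.log_le_log_iff hrdp hY, Real.log_prod (fun i _ => by
      have : (0 : ℝ) < rd (va L P i) := by exact_mod_cast rd_pos _
      exact this.ne')]
    refine le_trans (le_of_eq ?_) hsr
    unfold sr
    refine Finset.sum_congr rfl fun i _ => (lr_rd _).symm
  have h2 : (∏ i, (wq (va L P i) : ℝ)) * ∏ i, (rd (va L P i) : ℝ) = ∏ i, (va L P i : ℝ) := by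
    rw [← Finset.prod_mul_distrib]
    refine Finset.prod_congr rfl fun i _ => ?_
    exact_mod_cast wq_mul _
  have h3 : z * (T / (2 * U L)) ^ (d + 2) ≤ ∏ i, (va L P i : ℝ) := by
    rw [← Finset.mul_prod_erase _ _ (mem_univ i0)]
    refine mul_le_mul hzv ?_ (by positivity) (Nat.cast_nonneg _)
    have h4 : (T / (2 * U L)) ^ (d + 2) = ∏ _j ∈ (Finset.univ : Finset (Fin (d + 3))).erase i0,
        (T / (2 * U L)) := by
      rw [Finset.prod_const, Finset.card_erase_of_mem (mem_univ i0), card_univ, Fintype.card_fin]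
      congr 1
    rw [h4]
    refine Finset.prod_le_prod (fun j _ => by positivity) fun j hj => ?_
    have hj' : j ≠ i0 := (mem_erase.1 hj).1
    have h5 := ht_le L P hj'
    rw [max_eq_left (hmin j)] at h5
    have h6 : (ht P : ℝ) ≤ U L * va L P j := by exact_mod_cast h5
    rw [div_le_iff₀ (by positivity)]
    linarith
  rw [div_le_iff₀ hY]
  have hwp : 0 ≤ ∏ i, (wq (va L P i) : ℝ) := Finset.prod_nonneg fun i _ => Nat.cast_nonneg _
  calc z * (T / (2 * U L)) ^ (d + 2) ≤ ∏ i, (va L P i : ℝ) := h3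
    _ = (∏ i, (wq (va L P i) : ℝ)) * ∏ i, (rd (va L P i) : ℝ) := h2.symm
    _ ≤ _ := mul_le_mul_of_nonneg_left h1 hwp

/-- **Points of a given size whose radical is at most `Y`.** -/
theorem dyadic {d : ℕ} (L : Fm (d + 3)) (ε : ℝ) (hε : 0 < ε) : ∃ C : ℝ, 0 < C ∧ ∀ T Y : ℝ,
    1 ≤ T → 1 ≤ Y → ∀ F : Finset (ℤ × ℤ), (∀ P ∈ F, Pt L P ∧ T / 2 < (ht P : ℝ) ∧
      (ht P : ℝ) ≤ T ∧ sr L P ≤ Real.log Y) →
    (F.card : ℝ) ≤ C * T ^ ε * (Y * (T ^ (d + 1))⁻¹ + T ^ (2 - 1 / ((d : ℝ) + 3))) := by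
  classical
  obtain ⟨C1, hC1, hlarge⟩ := large_pts L ε hε
  obtain ⟨D, hD, hsum⟩ := sum_inv_rd (ε / 2) (by positivity)
  have hU : (1 : ℝ) ≤ U L := by exact_mod_cast U_pos L
  have hU0 : (0 : ℝ) < U L := by linarith
  have hRs0 : (0 : ℝ) < Rs L := by exact_mod_cast Rs_pos L
  have hd3 : (0 : ℝ) < (d : ℝ) + 3 := by positivity
  obtain ⟨G, hG⟩ : ∃ G : ℝ, G = 1 + 2 * Real.log (U L) + 4 / ε := ⟨_, rfl⟩
  have hlU : 0 ≤ Real.log (U L) := Real.log_nonneg hU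
  have hG0 : 0 < G := by rw [hG]; positivity
  obtain ⟨A, hA⟩ : ∃ A : ℝ, A = 28 * U L * (Rs L : ℝ) ^ ((d + 3) ^ 2 + 1) *
    (2 * (2 * U L) ^ (d + 2)) * D ^ (d + 3) := ⟨_, rfl⟩
  have hA0 : 0 < A := by rw [hA]; positivity
  refine ⟨C1 + ((d : ℝ) + 3) * (G * (A + 7)), by positivity, fun T Y hT hY F hF => ?_⟩
  have hT0 : 0 < T := by linarith
  have hY0 : 0 < Y := by linarith
  have hlT : 0 ≤ Real.log T := Real.log_nonneg hT
  obtain ⟨q, hq⟩ : ∃ q : ℝ, q = (d : ℝ) + 3 := ⟨_, rfl⟩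
  have hq3 : 3 ≤ q := by
    rw [hq]
    have : (0 : ℝ) ≤ d := Nat.cast_nonneg _
    linarith
  have hq0 : 0 < q := by linarith
  have hq1 : 1 / q ≤ 1 := by
    rw [div_le_one hq0]; linarith
  obtain ⟨B, hB⟩ : ∃ B : ℕ, B = ⌊T ^ (1 / q)⌋₊ := ⟨_, rfl⟩
  have hTq1 : 1 ≤ T ^ (1 / q) := Real.one_le_rpow hT (by positivity)
  have hB1 : 1 ≤ B := by rw [hB]; exact Nat.le_floor (by push_cast; exact hTq1)
  have hBle : (B : ℝ) ≤ T ^ (1 / q) := by rw [hB]; exact Nat.floor_le (by positivity)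
  have hBq : (B : ℝ) ^ (d + 3) ≤ T := by
    have h1 : (B : ℝ) ^ (d + 3) ≤ (T ^ (1 / q)) ^ (d + 3) :=
      pow_le_pow_left₀ (Nat.cast_nonneg _) hBle _
    refine h1.trans (le_of_eq ?_)
    rw [← Real.rpow_natCast, ← Real.rpow_mul hT0.le]
    push_cast
    rw [← hq, one_div, inv_mul_cancel₀ hq0.ne', Real.rpow_one]
  have hBε : (∑ e ∈ Finset.Icc 1 B, (1 : ℝ) / (rd e : ℝ)) ^ (d + 3) ≤
      D ^ (d + 3) * T ^ (ε / 2) := by
    have hB0 : (0 : ℝ) ≤ B := Nat.cast_nonneg _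
    have h1 : (∑ e ∈ Finset.Icc 1 B, (1 : ℝ) / (rd e : ℝ)) ^ (d + 3) ≤
        (D * (B : ℝ) ^ (ε / 2)) ^ (d + 3) :=
      pow_le_pow_left₀ (Finset.sum_nonneg fun e _ => by positivity) (hsum B hB1) _
    refine h1.trans ?_
    rw [mul_pow]
    refine mul_le_mul_of_nonneg_left ?_ (by positivity)
    rw [← Real.rpow_natCast ((B : ℝ) ^ (ε / 2)), ← Real.rpow_mul hB0, mul_comm (ε / 2),
      Real.rpow_mul hB0, Real.rpow_natCast]
    exact Real.rpow_le_rpow (by positivity) hBq (by positivity)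
  obtain ⟨K, hK⟩ : ∃ K : ℕ, K = ⌊Real.log (U L * T) / Real.log 2⌋₊ := ⟨_, rfl⟩
  have hl2 : 0 < Real.log 2 := Real.log_pos (by norm_num)
  have hl2' : (1 : ℝ) / 2 ≤ Real.log 2 := by
    have := Real.log_two_gt_d9
    linarith
  have hUT : 1 ≤ U L * T := one_le_mul_of_one_le_of_one_le hU hT
  have hK1 : (K : ℝ) + 1 ≤ G * T ^ (ε / 2) := by
    have h1 : (K : ℝ) ≤ Real.log (U L * T) / Real.log 2 := by
      rw [hK]
      exact Nat.floor_le (div_nonneg (Real.log_nonneg hUT) hl2.le)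
    have h2 : Real.log (U L * T) / Real.log 2 ≤ 2 * Real.log (U L * T) := by
      rw [div_le_iff₀ hl2]
      have := Real.log_nonneg hUT
      nlinarith
    have h3 : Real.log (U L * T) = Real.log (U L) + Real.log T :=
      Real.log_mul hU0.ne' hT0.ne'
    have h4 : Real.log T ≤ T ^ (ε / 2) / (ε / 2) := Real.log_le_rpow_div hT0.le (by positivity)
    have h5 : 1 ≤ T ^ (ε / 2) := Real.one_le_rpow hT (by positivity)
    have h6 : T ^ (ε / 2) / (ε / 2) = 2 / ε * T ^ (ε / 2) := by field_simp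
    rw [h6] at h4
    rw [h3] at h1 h2
    have h7 : 2 * Real.log (U L) ≤ 2 * Real.log (U L) * T ^ (ε / 2) :=
      le_mul_of_one_le_right (by positivity) h5
    calc (K : ℝ) + 1 ≤ 2 * (Real.log (U L) + Real.log T) + 1 := by linarith
      _ ≤ 2 * Real.log (U L) * T ^ (ε / 2) + 2 * (2 / ε * T ^ (ε / 2)) + T ^ (ε / 2) := by linarith
      _ = G * T ^ (ε / 2) := by rw [hG]; ring
  -- the two sets
  obtain ⟨F1, hF1⟩ : ∃ F1 : Finset (ℤ × ℤ), F1 = F.filter fun P =>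
    ∃ i, T ^ (1 / q) < (wq (va L P i) : ℝ) := ⟨_, rfl⟩
  obtain ⟨F2, hF2⟩ : ∃ F2 : Fin (d + 3) × ℕ → Finset (ℤ × ℤ), F2 = fun σ => F.filter fun P =>
    (∀ i, (wq (va L P i) : ℝ) ≤ T ^ (1 / q)) ∧ (∀ j, va L P σ.1 ≤ va L P j) ∧
      2 ^ σ.2 ≤ va L P σ.1 ∧ va L P σ.1 < 2 ^ (σ.2 + 1) := ⟨_, rfl⟩
  have hcov : F ⊆ F1 ∪ ((Finset.univ : Finset (Fin (d + 3))) ×ˢ range (K + 1)).biUnion F2 := by
    intro P hP
    obtain ⟨g1, g2, g3, g4⟩ := hF P hP
    rw [mem_union]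
    by_cases c1 : ∃ i, T ^ (1 / q) < (wq (va L P i) : ℝ)
    · left
      rw [hF1]
      exact mem_filter.2 ⟨hP, c1⟩
    · right
      push Not at c1
      obtain ⟨i0, -, hi0⟩ := Finset.exists_min_image (Finset.univ : Finset (Fin (d + 3)))
        (fun i => va L P i) ⟨0, mem_univ _⟩
      have hv0 : va L P i0 ≠ 0 := (va_pos g1 i0).ne'
      rw [mem_biUnion]
      refine ⟨(i0, Nat.log 2 (va L P i0)), ?_, ?_⟩
      · rw [mem_product]
        refine ⟨mem_univ _, ?_⟩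
        rw [mem_range, Nat.lt_succ_iff, hK]
        refine Nat.le_floor ?_
        rw [le_div_iff₀ hl2, ← Real.log_pow]
        refine Real.log_le_log (by positivity) ?_
        have h5 : (2 : ℝ) ^ Nat.log 2 (va L P i0) ≤ va L P i0 := by
          exact_mod_cast Nat.pow_log_le_self 2 hv0
        have h6 : (va L P i0 : ℝ) ≤ U L * ht P := by exact_mod_cast va_le L P i0
        exact h5.trans (h6.trans (mul_le_mul_of_nonneg_left g3 (by positivity)))
      · rw [hF2]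
        refine mem_filter.2 ⟨hP, c1, fun j => hi0 j (mem_univ j), ?_, ?_⟩
        · exact Nat.pow_log_le_self 2 hv0
        · exact Nat.lt_pow_succ_log_self (by norm_num) _
  have e1 : (F1.card : ℝ) ≤ C1 * T ^ (2 - 1 / q + ε) := by
    rw [hq]
    refine hlarge T hT F1 fun P hP => ?_
    rw [hF1] at hP
    obtain ⟨h1, h2⟩ := mem_filter.1 hP
    obtain ⟨g1, g2, g3, g4⟩ := hF P h1
    rw [hq] at h2
    exact ⟨g1, g3, h2⟩
  have e2 : ∀ σ ∈ (Finset.univ : Finset (Fin (d + 3))) ×ˢ range (K + 1), ((F2 σ).card : ℝ) ≤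
      A * (Y * (T ^ (d + 1))⁻¹) * T ^ (ε / 2) + 7 * T := by
    rintro ⟨i0, k⟩ -
    obtain ⟨s, hs⟩ : ∃ s : ℝ, s = 2 ^ k * (T / (2 * U L)) ^ (d + 2) / Y := ⟨_, rfl⟩
    have hs0 : 0 < s := by rw [hs]; positivity
    obtain ⟨S, hS⟩ : ∃ S : Finset (Fin (d + 3) → ℕ), S =
      (Fintype.piFinset (fun _ : Fin (d + 3) => Finset.Icc 1 B)).filter
        (fun w => s ≤ ∏ i, (w i : ℝ)) := ⟨_, rfl⟩
    have hSm : ∀ w ∈ S, (∀ i, 1 ≤ w i ∧ w i ≤ B) ∧ s ≤ ∏ i, (w i : ℝ) := by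
      intro w hw
      rw [hS] at hw
      obtain ⟨h1, h2⟩ := mem_filter.1 hw
      exact ⟨fun i => mem_Icc.1 (Fintype.mem_piFinset.1 h1 i), h2⟩
    have hSc : (S.card : ℝ) ≤ T := by
      have h1 : S.card ≤ B ^ (d + 3) := by
        rw [hS]
        refine (card_filter_le _ _).trans (le_of_eq ?_)
        rw [Fintype.card_piFinset, Finset.prod_const, card_univ, Fintype.card_fin, Nat.card_Icc]
        congr 1
      have h2 : (S.card : ℝ) ≤ (B : ℝ) ^ (d + 3) := by exact_mod_cast h1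
      exact h2.trans hBq
    have hsub : F2 (i0, k) ⊆ S.biUnion fun w => (F2 (i0, k)).filter fun P =>
        ∀ i, wq (va L P i) = w i := by
      intro P hP
      rw [mem_biUnion]
      refine ⟨fun i => wq (va L P i), ?_, mem_filter.2 ⟨hP, fun i => rfl⟩⟩
      rw [hF2] at hP
      obtain ⟨h1, h2, h3, h4, h5⟩ := mem_filter.1 hP
      simp only at h3 h4 h5
      obtain ⟨g1, g2, g3, g4⟩ := hF P h1
      rw [hS]
      refine mem_filter.2 ⟨Fintype.mem_piFinset.2 fun i => mem_Icc.2 ⟨wq_pos (va_pos g1 i), ?_⟩, ?_⟩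
      · rw [hB]
        exact Nat.le_floor (h2 i)
      · rw [hs]
        exact prod_wq_ge hT0 hY0 g1 g2 g4 h3 (by positivity) (by exact_mod_cast h4)
    have h1 : ((F2 (i0, k)).card : ℝ) ≤ ∑ w ∈ S, (((F2 (i0, k)).filter fun P =>
        ∀ i, wq (va L P i) = w i).card : ℝ) := by
      exact_mod_cast (card_le_card hsub).trans card_biUnion_le
    refine h1.trans ?_
    have h2 : ∀ w ∈ S, (((F2 (i0, k)).filter fun P => ∀ i, wq (va L P i) = w i).card : ℝ) ≤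
        28 * U L * (Rs L : ℝ) ^ ((d + 3) ^ 2 + 1) * (2 ^ (k + 1) * T) *
          (1 / ∏ i, ((w i * rd (w i) : ℕ) : ℝ)) + 7 := by
      intro w hw
      have h3 := lat (by omega : 2 ≤ d + 3) L i0 (fun i => w i * rd (w i))
        (fun i => Nat.mul_pos ((hSm w hw).1 i).1 (rd_pos _)) (T := T) (Z := 2 ^ (k + 1)) hT0.le
        (by positivity) ((F2 (i0, k)).filter fun P => ∀ i, wq (va L P i) = w i) (by
          intro P hP
          obtain ⟨h4, h5⟩ := mem_filter.1 hP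
          rw [hF2] at h4
          obtain ⟨h6, h7, h8, h9, h10⟩ := mem_filter.1 h4
          simp only at h8 h9 h10
          obtain ⟨g1, g2, g3, g4⟩ := hF P h6
          refine ⟨g1, g2, g3, ?_, fun i => ?_⟩
          · exact_mod_cast h10.le
          · rw [← h5 i]
            exact wq_rd_dvd (va_pos g1 i).ne')
      refine h3.trans (le_of_eq ?_)
      ring
    refine (Finset.sum_le_sum h2).trans ?_
    rw [Finset.sum_add_distrib, ← Finset.mul_sum, sum_const, nsmul_eq_mul]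
    have h3 := sum_tuples B hs0 S hSm
    have h4 : ∑ w ∈ S, (1 : ℝ) / ∏ i, ((w i * rd (w i) : ℕ) : ℝ) ≤
        s⁻¹ * (D ^ (d + 3) * T ^ (ε / 2)) :=
      h3.trans (mul_le_mul_of_nonneg_left hBε (by positivity))
    refine add_le_add ?_ (by linarith)
    calc 28 * U L * (Rs L : ℝ) ^ ((d + 3) ^ 2 + 1) * (2 ^ (k + 1) * T) *
          ∑ w ∈ S, (1 : ℝ) / ∏ i, ((w i * rd (w i) : ℕ) : ℝ) ≤
        28 * U L * (Rs L : ℝ) ^ ((d + 3) ^ 2 + 1) * (2 ^ (k + 1) * T) *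
          (s⁻¹ * (D ^ (d + 3) * T ^ (ε / 2))) := mul_le_mul_of_nonneg_left h4 (by positivity)
      _ = A * (Y * (T ^ (d + 1))⁻¹) * T ^ (ε / 2) := by
          rw [hA, hs]
          have hTd : T ^ (d + 2) = T ^ (d + 1) * T := pow_succ _ _
          rw [div_pow, hTd]
          field_simp
          ring
  have h1 : (F.card : ℝ) ≤ F1.card + ∑ σ ∈ (Finset.univ : Finset (Fin (d + 3))) ×ˢ range (K + 1),
      ((F2 σ).card : ℝ) := by
    exact_mod_cast (card_le_card hcov).trans ((card_union_le _ _).trans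
      (Nat.add_le_add_left card_biUnion_le _))
  have h2 : ∑ σ ∈ (Finset.univ : Finset (Fin (d + 3))) ×ˢ range (K + 1), ((F2 σ).card : ℝ) ≤
      ((d : ℝ) + 3) * ((K : ℝ) + 1) * (A * (Y * (T ^ (d + 1))⁻¹) * T ^ (ε / 2) + 7 * T) := by
    refine (Finset.sum_le_sum e2).trans (le_of_eq ?_)
    rw [sum_const, card_product, card_univ, Fintype.card_fin, card_range, nsmul_eq_mul]
    push_cast
    ring
  have hTε : T ^ (2 - 1 / q + ε) = T ^ ε * T ^ (2 - 1 / q) := by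
    rw [Real.rpow_add hT0]; ring
  have hT1 : T ≤ T ^ (2 - 1 / q) := by
    calc T = T ^ (1 : ℝ) := (Real.rpow_one T).symm
      _ ≤ _ := Real.rpow_le_rpow_of_exponent_le hT (by linarith)
  have hTe : 1 ≤ T ^ (ε / 2) := Real.one_le_rpow hT (by positivity)
  have hTee : T ^ (ε / 2) * T ^ (ε / 2) = T ^ ε := by
    rw [← Real.rpow_add hT0]; congr 1; ring
  have hYT : 0 ≤ Y * (T ^ (d + 1))⁻¹ := by positivity
  have hTq : 0 ≤ T ^ (2 - 1 / q) := by positivity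
  have h3 : A * (Y * (T ^ (d + 1))⁻¹) * T ^ (ε / 2) + 7 * T ≤
      T ^ (ε / 2) * ((A + 7) * (Y * (T ^ (d + 1))⁻¹ + T ^ (2 - 1 / q))) := by
    have h4 : 7 * T ≤ T ^ (ε / 2) * (7 * T ^ (2 - 1 / q)) := by
      have : 7 * T ≤ 7 * T ^ (2 - 1 / q) := by linarith
      exact this.trans (le_mul_of_one_le_left (by positivity) hTe)
    have h5 : 0 ≤ T ^ (ε / 2) * (7 * (Y * (T ^ (d + 1))⁻¹)) := by positivity
    have h6 : 0 ≤ T ^ (ε / 2) * (A * T ^ (2 - 1 / q)) := by positivity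
    calc A * (Y * (T ^ (d + 1))⁻¹) * T ^ (ε / 2) + 7 * T ≤
        A * (Y * (T ^ (d + 1))⁻¹) * T ^ (ε / 2) + T ^ (ε / 2) * (7 * T ^ (2 - 1 / q)) +
          T ^ (ε / 2) * (7 * (Y * (T ^ (d + 1))⁻¹)) + T ^ (ε / 2) * (A * T ^ (2 - 1 / q)) := by
            linarith
      _ = _ := by ring
  have goal : (F.card : ℝ) ≤ (C1 + ((d : ℝ) + 3) * (G * (A + 7))) * T ^ ε *
      (Y * (T ^ (d + 1))⁻¹ + T ^ (2 - 1 / q)) := by
   calc (F.card : ℝ) ≤ C1 * T ^ (2 - 1 / q + ε) +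
         ((d : ℝ) + 3) * ((K : ℝ) + 1) * (A * (Y * (T ^ (d + 1))⁻¹) * T ^ (ε / 2) + 7 * T) :=
         h1.trans (add_le_add e1 h2)
     _ ≤ C1 * (T ^ ε * T ^ (2 - 1 / q)) + ((d : ℝ) + 3) * (G * T ^ (ε / 2)) *
         (T ^ (ε / 2) * ((A + 7) * (Y * (T ^ (d + 1))⁻¹ + T ^ (2 - 1 / q)))) := by
           rw [hTε]
           gcongr
     _ = C1 * (T ^ ε * T ^ (2 - 1 / q)) + ((d : ℝ) + 3) * (G * (A + 7)) *
         ((T ^ (ε / 2) * T ^ (ε / 2)) * (Y * (T ^ (d + 1))⁻¹ + T ^ (2 - 1 / q))) := by ring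
     _ = C1 * (T ^ ε * T ^ (2 - 1 / q)) + ((d : ℝ) + 3) * (G * (A + 7)) *
         (T ^ ε * (Y * (T ^ (d + 1))⁻¹ + T ^ (2 - 1 / q))) := by rw [hTee]
     _ ≤ _ := by
         have h4 : 0 ≤ C1 * (T ^ ε * (Y * (T ^ (d + 1))⁻¹)) := by positivity
         have e : (C1 + ((d : ℝ) + 3) * (G * (A + 7))) * T ^ ε *
             (Y * (T ^ (d + 1))⁻¹ + T ^ (2 - 1 / q)) =
             C1 * (T ^ ε * T ^ (2 - 1 / q)) + ((d : ℝ) + 3) * (G * (A + 7)) *
               (T ^ ε * (Y * (T ^ (d + 1))⁻¹ + T ^ (2 - 1 / q))) +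
               C1 * (T ^ ε * (Y * (T ^ (d + 1))⁻¹)) := by ring
         rw [e]
         linarith
  rw [hq] at goal
  exact goal

end Pool.Agent.K1H71.PL
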