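import Pool.Agent.K1H71.PL.Up
import Pool.Agent.K1H71.PL.Lo

/-! Points of the projective line over the rationals, of all heights: the exact exponent of the
number of the violators (helper71). -/

set_option autoImplicit false

namespace Pool.Agent.K1H71.PL

open Finset Filter Topology
open Pool.Agent.TH867.QF (Fm ev va rs Rs Rs_pos rs_dvd Pt U U_pos ht ht_pos va_pos va_le)
open Pool.Agent.Y679.Kf (sr line_tot)

theorem fin_card {α : Type*} {S : Set α} {B : ℝ}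
    (h : ∀ F : Finset α, (F : Set α) ⊆ S → (F.card : ℝ) ≤ B) : S.Finite ∧ (S.ncard : ℝ) ≤ B := by
  classical
  have hfin : S.Finite := by
    by_contra hinf
    obtain ⟨F, hF, hc⟩ := Set.Infinite.exists_subset_card_eq hinf (⌈B⌉₊ + 1)
    have h1 := h F hF
    rw [hc] at h1
    have h2 := Nat.le_ceil B
    push_cast at h1
    linarith
  refine ⟨hfin, ?_⟩
  have h1 := h hfin.toFinset (by rw [Set.Finite.coe_toFinset])
  rwa [← Set.ncard_eq_toFinset_card S hfin] at h1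

/-- an exponent from upper and lower bounds -/
theorem tendsto_exponent {f : ℝ → ℝ} {L : ℝ}
    (h1 : ∀ ε : ℝ, 0 < ε → ∃ C : ℝ, 0 < C ∧ ∀ X : ℝ, 1 ≤ X → f X ≤ C * X ^ (L + ε))
    (h2 : ∃ c : ℝ, 0 < c ∧ ∃ X₀ : ℝ, ∀ X : ℝ, X₀ ≤ X → c * X ^ L ≤ f X) :
    Tendsto (fun X : ℝ => Real.log (f X) / Real.log X) atTop (𝓝 L) := by
  obtain ⟨c, hc, X₀, hlo⟩ := h2
  rw [Metric.tendsto_atTop]
  intro ε hε
  obtain ⟨C, hC, hup⟩ := h1 (ε / 3) (by positivity)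
  have ht : Tendsto (fun X : ℝ => ε / 3 * Real.log X) atTop atTop :=
    Real.tendsto_log_atTop.const_mul_atTop (by positivity)
  obtain ⟨X₁, hX₁⟩ := eventually_atTop.1 (ht.eventually (eventually_ge_atTop (Real.log C)))
  obtain ⟨X₂, hX₂⟩ := eventually_atTop.1 (ht.eventually (eventually_ge_atTop (-Real.log c)))
  refine ⟨max (max X₀ X₁) (max X₂ 2), fun X hX => ?_⟩
  have hX0 : X₀ ≤ X := (le_max_left _ _).trans ((le_max_left _ _).trans hX)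
  have hX1 : X₁ ≤ X := (le_max_right _ _).trans ((le_max_left _ _).trans hX)
  have hX3 : X₂ ≤ X := (le_max_left _ _).trans ((le_max_right _ _).trans hX)
  have hX2 : 2 ≤ X := (le_max_right _ _).trans ((le_max_right _ _).trans hX)
  have hXp : 0 < X := by linarith
  have hl : 0 < Real.log X := Real.log_pos (by linarith)
  have hf0 : 0 < f X := lt_of_lt_of_le (by positivity) (hlo X hX0)
  have e1 : Real.log (f X) ≤ Real.log C + (L + ε / 3) * Real.log X := by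
    rw [← Real.log_rpow hXp, ← Real.log_mul hC.ne' (by positivity)]
    exact Real.log_le_log hf0 (hup X (by linarith))
  have e2 : Real.log c + L * Real.log X ≤ Real.log (f X) := by
    rw [← Real.log_rpow hXp, ← Real.log_mul hc.ne' (by positivity)]
    exact Real.log_le_log (by positivity) (hlo X hX0)
  have e3 := hX₁ X hX1
  have e4 := hX₂ X hX3
  rw [Real.dist_eq, abs_lt]
  have hεl : 0 < ε * Real.log X := by positivity
  constructor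
  · rw [neg_lt_sub_iff_lt_add, ← sub_lt_iff_lt_add', lt_div_iff₀ hl]
    linarith
  · rw [sub_lt_iff_lt_add', div_lt_iff₀ hl]
    linarith

variable {d : ℕ}

/-- the points of radical at most `X` with a large height -/
def Wt (L : Fm (d + 3)) (f : ℤ × ℤ → ℝ) (Y X : ℝ) : Set (ℤ × ℤ) :=
  {P | Pt L P ∧ f P ≤ X ∧ Y ≤ (ht P : ℝ) ^ (d + 1)}

/-- the violators -/
def Vt (L : Fm (d + 3)) (f : ℤ × ℤ → ℝ) (κ B X : ℝ) : Set (ℤ × ℤ) :=
  {P | Pt L P ∧ f P ≤ X ∧ B * f P ^ κ ≤ (ht P : ℝ) ^ (d + 1)}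

/-- all the points -/
def At (L : Fm (d + 3)) (f : ℤ × ℤ → ℝ) (X : ℝ) : Set (ℤ × ℤ) := {P | Pt L P ∧ f P ≤ X}

/-- the function is comparable with the radical -/
structure Cmp (L : Fm (d + 3)) (f : ℤ × ℤ → ℝ) (R : ℝ) : Prop where
  hR : 1 ≤ R
  h1 : ∀ P, Pt L P → 1 ≤ f P
  h2 : ∀ P, Pt L P → sr L P ≤ Real.log (R * f P)
  h3 : ∀ P, Pt L P → Real.log (f P) ≤ sr L P

variable {L : Fm (d + 3)} {f : ℤ × ℤ → ℝ} {R : ℝ}

theorem At_fin (h : Cmp L f R) (X : ℝ) : (At L f X).Finite := by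
  obtain ⟨C, hC, htot⟩ := line_tot L
  rcases lt_or_ge X 1 with hX | hX
  · have : At L f X = ∅ := by
      rw [Set.eq_empty_iff_forall_notMem]
      rintro P ⟨h1, h2⟩
      have := h.h1 P h1
      linarith
    rw [this]
    exact Set.finite_empty
  refine (fin_card (B := C * (R * X) ^ (2 / ((d : ℝ) + 3))) fun F hF => ?_).1
  have hR := h.hR
  refine htot (R * X) (one_le_mul_of_one_le_of_one_le hR hX) F fun P hP => ?_
  obtain ⟨h1, h2⟩ := hF hP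
  refine ⟨h1, (h.h2 P h1).trans (Real.log_le_log ?_ (mul_le_mul_of_nonneg_left h2 (by linarith)))⟩
  have := h.h1 P h1
  have : 0 < f P := by linarith
  positivity

/-- `T ≤ H` and `Y = T ^ (d + 1) ≤ H ^ (d + 1)` -/
theorem root_pow {Y : ℝ} (hY : 0 ≤ Y) : (Y ^ (1 / ((d : ℝ) + 1))) ^ (d + 1) = Y := by
  rw [← Real.rpow_natCast, ← Real.rpow_mul hY]
  push_cast
  rw [one_div, inv_mul_cancel₀ (by positivity), Real.rpow_one]

theorem root_le {Y H : ℝ} (hY : 0 ≤ Y) (hH : 0 ≤ H) :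
    Y ^ (1 / ((d : ℝ) + 1)) ≤ H ↔ Y ≤ H ^ (d + 1) := by
  have h1 : 0 ≤ Y ^ (1 / ((d : ℝ) + 1)) := by positivity
  rw [← pow_le_pow_iff_left₀ h1 hH (by omega : d + 1 ≠ 0), root_pow hY]

theorem Wt_le (L : Fm (d + 3)) : ∃ κ₀ : ℝ, ((d : ℝ) + 1) / ((d : ℝ) + 3) < κ₀ ∧
    ∀ (R ε : ℝ), 1 ≤ R → 0 < ε → ∃ C : ℝ, 0 < C ∧ ∀ f : ℤ × ℤ → ℝ, Cmp L f R → ∀ X Y : ℝ, 1 ≤ X →
    1 ≤ Y → Y ≤ X ^ κ₀ → ((Wt L f Y X).ncard : ℝ) ≤ C * (X ^ (1 + ε) / Y) := by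
  obtain ⟨θ, hθ, h⟩ := tail L
  have hd0 : (0 : ℝ) ≤ d := Nat.cast_nonneg _
  refine ⟨((d : ℝ) + 1) * (1 / ((d : ℝ) + 3) + θ), ?_, fun R ε hR hε => ?_⟩
  · rw [mul_add, mul_one_div]
    have : 0 < ((d : ℝ) + 1) * θ := by positivity
    linarith
  obtain ⟨C, hC, hC2⟩ := h ε hε
  refine ⟨C * R ^ (1 + ε), by positivity, fun f hf X Y hX hY hYX => ?_⟩
  have hX0 : 0 < X := by linarith
  have hY0 : 0 < Y := by linarith
  have hR0 : 0 < R := by linarith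
  refine (fin_card fun F hF => ?_).2
  have hT : 1 ≤ Y ^ (1 / ((d : ℝ) + 1)) := Real.one_le_rpow hY (by positivity)
  have hTX : Y ^ (1 / ((d : ℝ) + 1)) ≤ (R * X) ^ (1 / ((d : ℝ) + 3) + θ) := by
    calc Y ^ (1 / ((d : ℝ) + 1)) ≤ (X ^ (((d : ℝ) + 1) * (1 / ((d : ℝ) + 3) + θ))) ^
          (1 / ((d : ℝ) + 1)) := Real.rpow_le_rpow hY0.le hYX (by positivity)
      _ = X ^ (1 / ((d : ℝ) + 3) + θ) := by
          rw [← Real.rpow_mul hX0.le]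
          congr 1
          field_simp
      _ ≤ _ := Real.rpow_le_rpow hX0.le (le_mul_of_one_le_left hX0.le hR) (by positivity)
  have h1 := hC2 (R * X) _ (one_le_mul_of_one_le_of_one_le hR hX) hT hTX F (fun P hP => by
    obtain ⟨g1, g2, g3⟩ := hF hP
    have g4 := hf.h1 P g1
    refine ⟨g1, (hf.h2 P g1).trans (Real.log_le_log (by positivity)
      (mul_le_mul_of_nonneg_left g2 hR0.le)), ?_⟩
    exact (root_le hY0.le (Nat.cast_nonneg _)).2 g3)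
  rw [root_pow hY0.le] at h1
  refine h1.trans (le_of_eq ?_)
  rw [Real.mul_rpow hR0.le hX0.le]
  ring

theorem Wt_ge (L : Fm (d + 3)) : ∃ c : ℝ, 0 < c ∧ ∀ (R : ℝ) (f : ℤ × ℤ → ℝ), Cmp L f R →
    ∀ X Y : ℝ, 1 ≤ X → X ^ (((d : ℝ) + 1) / ((d : ℝ) + 3)) ≤ Y → Y ≤ c * X →
    c * (X / Y) ≤ ((Wt L f Y X).ncard : ℝ) := by
  obtain ⟨c, C, hc, hC, h⟩ := tail_low L
  have hd0 : (0 : ℝ) ≤ d := Nat.cast_nonneg _
  refine ⟨c, hc, fun R f hf X Y hX hXY hYX => ?_⟩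
  have hX0 : 0 < X := by linarith
  have hY1 : 1 ≤ Y := (Real.one_le_rpow hX (by positivity)).trans hXY
  have hY0 : 0 < Y := by linarith
  have hT : 1 ≤ Y ^ (1 / ((d : ℝ) + 1)) := Real.one_le_rpow hY1 (by positivity)
  obtain ⟨F, hF1, hF2⟩ := h X (Y ^ (1 / ((d : ℝ) + 1))) hX hT (by
    rw [← Real.rpow_natCast, ← Real.rpow_mul hY0.le]
    push_cast
    calc X = (X ^ (((d : ℝ) + 1) / ((d : ℝ) + 3))) ^ (1 / ((d : ℝ) + 1) * ((d : ℝ) + 3)) := by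
          rw [← Real.rpow_mul hX0.le]
          have e : ((d : ℝ) + 1) / ((d : ℝ) + 3) * (1 / ((d : ℝ) + 1) * ((d : ℝ) + 3)) = 1 := by
            field_simp
          rw [e, Real.rpow_one]
      _ ≤ _ := Real.rpow_le_rpow (by positivity) hXY (by positivity)) (by
    rw [root_pow hY0.le]
    exact hYX)
  rw [root_pow hY0.le] at hF2
  have hsub : (F : Set (ℤ × ℤ)) ⊆ Wt L f Y X := by
    intro P hP
    obtain ⟨g1, g2, g3, g4, g5⟩ := hF1 P hP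
    have g6 := hf.h1 P g1
    refine ⟨g1, ?_, (root_le hY0.le (Nat.cast_nonneg _)).1 g3⟩
    rw [← Real.log_le_log_iff (by linarith) hX0]
    exact (hf.h3 P g1).trans g2
  have hfin : (Wt L f Y X).Finite := (At_fin hf X).subset fun P hP => ⟨hP.1, hP.2.1⟩
  have h1 := Set.ncard_le_ncard hsub hfin
  rw [Set.ncard_coe_finset] at h1
  have h2 : (F.card : ℝ) ≤ ((Wt L f Y X).ncard : ℝ) := by exact_mod_cast h1
  refine le_trans (le_of_eq ?_) (hF2.trans h2)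
  ring

theorem two_div : 1 - ((d : ℝ) + 1) / ((d : ℝ) + 3) = 2 / ((d : ℝ) + 3) := by
  field_simp
  ring

theorem Vt_ge (L : Fm (d + 3)) {κ : ℝ} (hκ1 : κ < 1) {B : ℝ} (hB : 0 < B) :
    ∃ c : ℝ, 0 < c ∧ ∃ X₀ : ℝ, ∀ (R : ℝ) (f : ℤ × ℤ → ℝ), Cmp L f R → ∀ X : ℝ, X₀ ≤ X →
    c * X ^ (min (2 / ((d : ℝ) + 3)) (1 - κ)) ≤ ((Vt L f κ B X).ncard : ℝ) := by
  obtain ⟨c, hc, h⟩ := Wt_ge L
  have hd0 : (0 : ℝ) ≤ d := Nat.cast_nonneg _
  obtain ⟨κ', hκ'⟩ : ∃ κ' : ℝ, κ' = max (((d : ℝ) + 1) / ((d : ℝ) + 3)) κ := ⟨_, rfl⟩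
  have hκκ' : κ ≤ κ' := by rw [hκ']; exact le_max_right _ _
  have hθκ' : ((d : ℝ) + 1) / ((d : ℝ) + 3) ≤ κ' := by rw [hκ']; exact le_max_left _ _
  have hlt : ((d : ℝ) + 1) / ((d : ℝ) + 3) < 1 := by
    rw [div_lt_one (by positivity)]
    linarith
  have hκ'1 : κ' < 1 := by rw [hκ']; exact max_lt hlt hκ1
  have hκ'0 : 0 < κ' := lt_of_lt_of_le (by positivity) hθκ'
  have hmin : min (2 / ((d : ℝ) + 3)) (1 - κ) = 1 - κ' := by
    rw [hκ', ← two_div]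
    rcases le_total (((d : ℝ) + 1) / ((d : ℝ) + 3)) κ with h1 | h1
    · rw [max_eq_right h1, min_eq_right (by linarith)]
    · rw [max_eq_left h1, min_eq_left (by linarith)]
  obtain ⟨B', hB'⟩ : ∃ B' : ℝ, B' = max 1 B := ⟨_, rfl⟩
  have hB1 : 1 ≤ B' := by rw [hB']; exact le_max_left _ _
  have hBB : B ≤ B' := by rw [hB']; exact le_max_right _ _
  have hB0 : 0 < B' := by linarith
  have ht : Tendsto (fun X : ℝ => X ^ (1 - κ')) atTop atTop := tendsto_rpow_atTop (by linarith)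
  obtain ⟨X₁, hX₁⟩ := eventually_atTop.1 (ht.eventually (eventually_ge_atTop (B' / c)))
  refine ⟨c / B', by positivity, max X₁ 1, fun R f hf X hX => ?_⟩
  rw [hmin]
  have hX1 : 1 ≤ X := (le_max_right _ _).trans hX
  have hX0 : 0 < X := by linarith
  have h1 := hX₁ X ((le_max_left _ _).trans hX)
  have hY1 : X ^ κ' ≤ B' * X ^ κ' := le_mul_of_one_le_left (by positivity) hB1
  have h2 := h R f hf X (B' * X ^ κ') hX1
    ((Real.rpow_le_rpow_of_exponent_le hX1 hθκ').trans hY1) (by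
    have h3 : B' ≤ c * X ^ (1 - κ') := by
      rw [div_le_iff₀ hc] at h1
      linarith
    calc B' * X ^ κ' ≤ (c * X ^ (1 - κ')) * X ^ κ' := mul_le_mul_of_nonneg_right h3 (by positivity)
      _ = c * X := by
          rw [mul_assoc, ← Real.rpow_add hX0]
          rw [show 1 - κ' + κ' = 1 by ring, Real.rpow_one])
  have h3 : X / (B' * X ^ κ') = X ^ (1 - κ') / B' := by
    rw [Real.rpow_sub hX0, Real.rpow_one]
    field_simp
  rw [h3] at h2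
  refine le_trans (le_of_eq (by ring)) (h2.trans ?_)
  have hfin : (Vt L f κ B X).Finite := (At_fin hf X).subset fun P hP => ⟨hP.1, hP.2.1⟩
  have hsub : Wt L f (B' * X ^ κ') X ⊆ Vt L f κ B X := by
    rintro P ⟨g1, g2, g3⟩
    have g4 := hf.h1 P g1
    refine ⟨g1, g2, le_trans ?_ g3⟩
    refine mul_le_mul hBB ?_ (by positivity) hB0.le
    exact (Real.rpow_le_rpow_of_exponent_le g4 hκκ').trans
      (Real.rpow_le_rpow (by linarith) g2 hκ'0.le)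
  exact_mod_cast Set.ncard_le_ncard hsub hfin

theorem At_le (L : Fm (d + 3)) (R : ℝ) (hR : 1 ≤ R) : ∃ C : ℝ, 0 < C ∧ ∀ f : ℤ × ℤ → ℝ,
    Cmp L f R → ∀ X : ℝ, 1 ≤ X → ((At L f X).ncard : ℝ) ≤ C * X ^ (2 / ((d : ℝ) + 3)) := by
  obtain ⟨C, hC, htot⟩ := line_tot L
  refine ⟨C * R ^ (2 / ((d : ℝ) + 3)), by positivity, fun f hf X hX => ?_⟩
  have hR0 : 0 < R := by linarith
  have hX0 : 0 < X := by linarith
  refine (fin_card fun F hF => ?_).2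
  have h1 := htot (R * X) (one_le_mul_of_one_le_of_one_le hR hX) F fun P hP => by
    obtain ⟨h1, h2⟩ := hF hP
    refine ⟨h1, (hf.h2 P h1).trans (Real.log_le_log ?_ (mul_le_mul_of_nonneg_left h2 hR0.le))⟩
    have := hf.h1 P h1
    have : 0 < f P := by linarith
    positivity
  refine h1.trans (le_of_eq ?_)
  rw [Real.mul_rpow hR0.le hX0.le]
  ring

theorem Vt_le (L : Fm (d + 3)) : ∃ κ₀ : ℝ, ((d : ℝ) + 1) / ((d : ℝ) + 3) < κ₀ ∧ κ₀ < 1 ∧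
    ∀ κ : ℝ, κ ≤ κ₀ → ∀ (R B ε : ℝ), 1 ≤ R → 0 < B → 0 < ε →
    ∃ C : ℝ, 0 < C ∧ ∀ f : ℤ × ℤ → ℝ, Cmp L f R → ∀ X : ℝ, 1 ≤ X →
    ((Vt L f κ B X).ncard : ℝ) ≤ C * X ^ (min (2 / ((d : ℝ) + 3)) (1 - κ) + ε) := by
  obtain ⟨M₀, hM₀, h⟩ := viol_up L
  have hd0 : (0 : ℝ) ≤ d := Nat.cast_nonneg _
  have hlt : ((d : ℝ) + 1) / ((d : ℝ) + 3) < 1 := by
    rw [div_lt_one (by positivity)]
    linarith
  have hlt2 : ((d : ℝ) + 1) / ((d : ℝ) + 3) < ((d : ℝ) + 1) * M₀ := by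
    calc ((d : ℝ) + 1) / ((d : ℝ) + 3) = ((d : ℝ) + 1) * (1 / ((d : ℝ) + 3)) := by ring
      _ < _ := mul_lt_mul_of_pos_left hM₀ (by positivity)
  obtain ⟨μ, hμ⟩ : ∃ μ : ℝ, μ = (((d : ℝ) + 1) / ((d : ℝ) + 3) + 1) / 2 := ⟨_, rfl⟩
  refine ⟨min (((d : ℝ) + 1) * M₀) μ, lt_min hlt2 (by rw [hμ]; linarith),
    (min_le_right _ _).trans_lt (by rw [hμ]; linarith), fun κ hκ0 R B ε hR hB hε => ?_⟩
  have hκ1 : κ ≤ 1 := (hκ0.trans (min_le_right _ _)).trans (by rw [hμ]; linarith)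
  rcases le_or_gt κ (((d : ℝ) + 1) / ((d : ℝ) + 3)) with hκ | hκ
  · obtain ⟨C, hC, hA⟩ := At_le L R hR
    refine ⟨C, hC, fun f hf X hX => ?_⟩
    have hsub : Vt L f κ B X ⊆ At L f X := fun P hP => ⟨hP.1, hP.2.1⟩
    have h1 : ((Vt L f κ B X).ncard : ℝ) ≤ ((At L f X).ncard : ℝ) := by
      exact_mod_cast Set.ncard_le_ncard hsub (At_fin hf X)
    refine (h1.trans (hA f hf X hX)).trans (mul_le_mul_of_nonneg_left ?_ hC.le)
    refine Real.rpow_le_rpow_of_exponent_le hX ?_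
    rw [← two_div (d := d), min_eq_left (by linarith)]
    linarith
  have hM1 : 1 / ((d : ℝ) + 3) < κ / ((d : ℝ) + 1) := by
    rw [lt_div_iff₀ (by positivity)]
    calc 1 / ((d : ℝ) + 3) * ((d : ℝ) + 1) = ((d : ℝ) + 1) / ((d : ℝ) + 3) := by ring
      _ < κ := hκ
  have hM2 : κ / ((d : ℝ) + 1) ≤ M₀ := by
    rw [div_le_iff₀ (by positivity)]
    refine (hκ0.trans (min_le_left _ _)).trans (le_of_eq (by ring))
  have hM3 : ((d : ℝ) + 1) * (κ / ((d : ℝ) + 1)) = κ := by field_simp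
  obtain ⟨C, hC, hC2⟩ := h _ hM1 hM2 (by rw [hM3]; exact hκ1) R (B ^ (1 / ((d : ℝ) + 1))) ε hR
    (by positivity) hε
  rw [hM3] at hC2
  refine ⟨C, hC, fun f hf X hX => ?_⟩
  rw [← two_div (d := d), min_eq_right (by linarith)]
  refine (fin_card fun F hF => ?_).2
  refine hC2 f X hX F fun P hP => ?_
  obtain ⟨g1, g2, g3⟩ := hF hP
  have g4 := hf.h1 P g1
  have g0 : 0 < f P := by linarith
  refine ⟨g1, g4, g2, hf.h2 P g1, ?_⟩
  rw [show κ / ((d : ℝ) + 1) = κ * (1 / ((d : ℝ) + 1)) by ring, Real.rpow_mul g0.le,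
    ← Real.mul_rpow hB.le (by positivity)]
  exact (root_le (by positivity) (Nat.cast_nonneg _)).2 g3

/-- **The exact exponent.** -/
theorem Vt_exp (L : Fm (d + 3)) : ∃ κ₀ : ℝ, ((d : ℝ) + 1) / ((d : ℝ) + 3) < κ₀ ∧ κ₀ < 1 ∧
    ∀ κ : ℝ, κ ≤ κ₀ → ∀ (R B : ℝ) (f : ℤ × ℤ → ℝ), 0 < B → Cmp L f R →
    Tendsto (fun X : ℝ => Real.log ((Vt L f κ B X).ncard : ℝ) / Real.log X) atTop
      (𝓝 (min (2 / ((d : ℝ) + 3)) (1 - κ))) := by
  obtain ⟨κ₀, h1, h2, h3⟩ := Vt_le L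
  refine ⟨κ₀, h1, h2, fun κ hκ0 R B f hB hf => ?_⟩
  refine tendsto_exponent (fun ε hε => ?_) ?_
  · obtain ⟨C, hC, h4⟩ := h3 κ hκ0 R B ε hf.hR hB hε
    exact ⟨C, hC, h4 f hf⟩
  · obtain ⟨c, hc, X₀, h4⟩ := Vt_ge L (by linarith : κ < 1) hB
    exact ⟨c, hc, X₀, h4 R f hf⟩

end Pool.Agent.K1H71.PL
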