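import Pool.Agent.K1H71.PL.Lat

/-! Sums over the quotients of integers by their radicals (helper71). -/

set_option autoImplicit false

namespace Pool.Agent.K1H71.PL

open Finset
open Pool.Agent.Y679.Kf (rd rd_pos rd_dvd lr_rd)
open Pool.Agent.TH867.SQ (lr)

/-- the quotient of an integer by its radical -/
def wq (n : ℕ) : ℕ := n / rd n

theorem wq_mul (n : ℕ) : wq n * rd n = n := Nat.div_mul_cancel (rd_dvd n)

theorem wq_pos {n : ℕ} (hn : 0 < n) : 0 < wq n := by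
  rw [Nat.pos_iff_ne_zero]
  intro h
  have := wq_mul n
  rw [h, zero_mul] at this
  omega

theorem wq_dvd (n : ℕ) : wq n ∣ n := ⟨rd n, (wq_mul n).symm⟩

theorem wq_le {n : ℕ} (hn : 0 < n) : wq n ≤ n := Nat.le_of_dvd hn (wq_dvd n)

theorem rd_dvd_rd {m n : ℕ} (h : m ∣ n) (hn : n ≠ 0) : rd m ∣ rd n :=
  Finset.prod_dvd_prod_of_subset _ _ _ (Nat.primeFactors_mono h hn)

/-- the square-full kernel -/
theorem wq_rd_dvd {n : ℕ} (hn : n ≠ 0) : wq n * rd (wq n) ∣ n := by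
  have h : wq n * rd (wq n) ∣ wq n * rd n := mul_dvd_mul_left _ (rd_dvd_rd (wq_dvd n) hn)
  rwa [wq_mul] at h

theorem log_wq {n : ℕ} (hn : 0 < n) : Real.log (wq n) = Real.log n - lr n := by
  have h1 : (wq n : ℝ) * rd n = n := by exact_mod_cast wq_mul n
  have h2 : (0 : ℝ) < wq n := by exact_mod_cast wq_pos hn
  have h3 : (0 : ℝ) < rd n := by exact_mod_cast rd_pos n
  rw [lr_rd, ← h1, Real.log_mul h2.ne' h3.ne']
  ring

/-- `∑_{d ≤ X} 1 / rad d` -/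
theorem sum_inv_rd (ε : ℝ) (hε : 0 < ε) : ∃ D : ℝ, 0 < D ∧ ∀ X : ℕ, 1 ≤ X →
    ∑ d ∈ Finset.Icc 1 X, (1 : ℝ) / (rd d : ℝ) ≤ D * (X : ℝ) ^ ε := by
  obtain ⟨D, hD, h⟩ := Pool.Agent.H785R2.ABC.stmtA3_of Pool.Agent.H785R2.ABC.stmtA2 ε hε
  refine ⟨D, hD, fun X hX => ?_⟩
  have h1 := h X hX 1 le_rfl
  rw [Nat.cast_one, div_one] at h1
  refine le_trans (le_of_eq ?_) h1
  rw [Finset.filter_true_of_mem (fun d _ => one_dvd _)]
  rfl

/-- sum over tuples -/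
theorem sum_tuples {r : ℕ} (B : ℕ) {s : ℝ} (hs : 0 < s) (S : Finset (Fin r → ℕ))
    (hS : ∀ w ∈ S, (∀ i, 1 ≤ w i ∧ w i ≤ B) ∧ s ≤ ∏ i, (w i : ℝ)) :
    ∑ w ∈ S, (1 : ℝ) / ∏ i, ((w i * rd (w i) : ℕ) : ℝ) ≤
      s⁻¹ * (∑ d ∈ Finset.Icc 1 B, (1 : ℝ) / (rd d : ℝ)) ^ r := by
  classical
  have h1 : ∀ w ∈ S, (1 : ℝ) / ∏ i, ((w i * rd (w i) : ℕ) : ℝ) ≤
      s⁻¹ * ∏ i, (1 : ℝ) / (rd (w i) : ℝ) := by
    intro w hw
    obtain ⟨h2, h3⟩ := hS w hw
    have h4 : ∏ i, ((w i * rd (w i) : ℕ) : ℝ) = (∏ i, (w i : ℝ)) * ∏ i, (rd (w i) : ℝ) := by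
      rw [← Finset.prod_mul_distrib]
      refine Finset.prod_congr rfl fun i _ => by push_cast; ring
    have h5 : ∏ i, (1 : ℝ) / (rd (w i) : ℝ) = 1 / ∏ i, (rd (w i) : ℝ) := by
      rw [Finset.prod_div_distrib, Finset.prod_const_one]
    have h6 : (0 : ℝ) < ∏ i, (rd (w i) : ℝ) :=
      Finset.prod_pos fun i _ => by exact_mod_cast rd_pos _
    rw [h4, h5, one_div, mul_inv, one_div]
    exact mul_le_mul_of_nonneg_right (inv_anti₀ hs h3) (by positivity)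
  refine (Finset.sum_le_sum h1).trans ?_
  rw [← Finset.mul_sum]
  refine mul_le_mul_of_nonneg_left ?_ (by positivity)
  have h2 : (∑ d ∈ Finset.Icc 1 B, (1 : ℝ) / (rd d : ℝ)) ^ r =
      ∑ w ∈ Fintype.piFinset (fun _ : Fin r => Finset.Icc 1 B), ∏ i, (1 : ℝ) / (rd (w i) : ℝ) := by
    have h3 := Finset.prod_univ_sum (fun _ : Fin r => Finset.Icc 1 B)
      (fun (_ : Fin r) (e : ℕ) => (1 : ℝ) / (rd e : ℝ))
    rw [Finset.prod_const, Finset.card_univ, Fintype.card_fin] at h3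
    exact h3
  rw [h2]
  refine Finset.sum_le_sum_of_subset_of_nonneg ?_ fun w _ _ =>
    Finset.prod_nonneg fun i _ => by positivity
  intro w hw
  rw [Fintype.mem_piFinset]
  intro i
  rw [mem_Icc]
  exact (hS w hw).1 i

/-- integers with a large quotient by the radical -/
theorem large_wq (ε : ℝ) (hε : 0 < ε) : ∃ D : ℝ, 0 < D ∧ ∀ N : ℕ, 1 ≤ N → ∀ W : ℝ, 0 < W →
    (((Finset.Icc 1 N).filter fun n => W < (wq n : ℝ)).card : ℝ) ≤ D * (N : ℝ) ^ (1 + ε) / W := by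
  classical
  obtain ⟨D, hD, h⟩ := sum_inv_rd ε hε
  refine ⟨D, hD, fun N hN W hW => ?_⟩
  have hN0 : (0 : ℝ) < N := by exact_mod_cast hN
  have hsub : ((Finset.Icc 1 N).filter fun n => W < (wq n : ℝ)) ⊆
      ((Finset.Icc 1 N).filter fun w : ℕ => W < (w : ℝ)).biUnion fun w =>
        (Finset.Ioc 0 N).filter fun n => w * rd w ∣ n := by
    intro n hn
    obtain ⟨h1, h2⟩ := mem_filter.1 hn
    obtain ⟨h3, h4⟩ := mem_Icc.1 h1
    rw [mem_biUnion]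
    refine ⟨wq n, mem_filter.2 ⟨mem_Icc.2 ⟨wq_pos (by omega), (wq_le (by omega)).trans h4⟩, h2⟩,
      mem_filter.2 ⟨mem_Ioc.2 ⟨by omega, h4⟩, wq_rd_dvd (by omega)⟩⟩
  have h1 : (((Finset.Icc 1 N).filter fun n => W < (wq n : ℝ)).card : ℝ) ≤
      ∑ w ∈ (Finset.Icc 1 N).filter (fun w : ℕ => W < (w : ℝ)),
        (((Finset.Ioc 0 N).filter fun n => w * rd w ∣ n).card : ℝ) := by
    exact_mod_cast (card_le_card hsub).trans card_biUnion_le
  refine h1.trans ?_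
  have h2 : ∀ w ∈ (Finset.Icc 1 N).filter (fun w : ℕ => W < (w : ℝ)),
      (((Finset.Ioc 0 N).filter fun n => w * rd w ∣ n).card : ℝ) ≤
        (N / W) * (1 / (rd w : ℝ)) := by
    intro w hw
    obtain ⟨h3, h4⟩ := mem_filter.1 hw
    rw [Nat.Ioc_filter_dvd_card_eq_div]
    have hr0 : (0 : ℝ) < rd w := by exact_mod_cast rd_pos w
    have hw0 : (0 : ℝ) < w := lt_trans hW h4
    have h5 : ((N / (w * rd w) : ℕ) : ℝ) ≤ N / (w * rd w) := by
      have := Nat.cast_div_le (α := ℝ) (m := N) (n := w * rd w)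
      push_cast at this
      exact this
    refine h5.trans ?_
    rw [div_mul_div_comm, mul_one]
    exact div_le_div_of_nonneg_left hN0.le (by positivity)
      (mul_le_mul_of_nonneg_right h4.le hr0.le)
  refine (Finset.sum_le_sum h2).trans ?_
  rw [← Finset.mul_sum]
  have h3 : ∑ w ∈ (Finset.Icc 1 N).filter (fun w : ℕ => W < (w : ℝ)), (1 : ℝ) / (rd w : ℝ) ≤
      D * (N : ℝ) ^ ε :=
    (Finset.sum_le_sum_of_subset_of_nonneg (Finset.filter_subset _ _)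
      fun w _ _ => by positivity).trans (h N hN)
  calc (N : ℝ) / W * ∑ w ∈ (Finset.Icc 1 N).filter (fun w : ℕ => W < (w : ℝ)), (1 : ℝ) / (rd w : ℝ) ≤
      (N : ℝ) / W * (D * (N : ℝ) ^ ε) := mul_le_mul_of_nonneg_left h3 (by positivity)
    _ = D * (N : ℝ) ^ (1 + ε) / W := by
      rw [Real.rpow_add hN0, Real.rpow_one]
      ring

end Pool.Agent.K1H71.PL
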