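import Pool.Agent.TH867.SR.LB
import Pool.Agent.K1H71.PL.Sum

/-! Many points of the projective line over the rationals with a large height and a small radical
(helper71). -/

set_option autoImplicit false

namespace Pool.Agent.K1H71.PL

open Finset
open Pool.Agent.TH867.SR (cpp coprime_count)
open Pool.Agent.TH867.QF (Fm ev va rs Rs Rs_pos rs_dvd Pt U U_pos ht ht_pos va_pos va_le cross1
  cross2 coef_le2)
open Pool.Agent.Y679.Kf (rd rd_pos rd_dvd rd_le lr_rd sr)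
open Pool.Agent.TH867.SQ (lr lr_mul lr_dvd lr_nonneg)

/-- make the second entry odd -/
def adj1 (p : ℕ × ℕ) : ℕ × ℕ := if p.2 % 2 = 1 then p else (p.1, p.1 + p.2)

/-- make the first entry prime to 3 -/
def adj2 (p : ℕ × ℕ) : ℕ × ℕ := if p.1 % 3 = 0 then (p.1 + p.2, p.2) else p

theorem adj1_fib (s : Finset (ℕ × ℕ)) : s.card ≤ 2 * (s.image adj1).card := by
  refine card_le_mul_card_image s 2 fun a _ => ?_
  have hsub : s.filter (fun x => adj1 x = a) ⊆ {a, (a.1, a.2 - a.1)} := by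
    intro x hx
    have h := (mem_filter.1 hx).2
    unfold adj1 at h
    rw [mem_insert, mem_singleton]
    split_ifs at h with h1
    · exact Or.inl h
    · right
      rw [← h]
      simp
  exact (card_le_card hsub).trans card_le_two

theorem adj2_fib (s : Finset (ℕ × ℕ)) : s.card ≤ 2 * (s.image adj2).card := by
  refine card_le_mul_card_image s 2 fun a _ => ?_
  have hsub : s.filter (fun x => adj2 x = a) ⊆ {a, (a.1 - a.2, a.2)} := by
    intro x hx
    have h := (mem_filter.1 hx).2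
    unfold adj2 at h
    rw [mem_insert, mem_singleton]
    split_ifs at h with h1
    · right
      rw [← h]
      simp
    · exact Or.inl h
  exact (card_le_card hsub).trans card_le_two

/-- the pairs -/
def GG (V : ℕ) : Finset (ℕ × ℕ) := ((cpp V).image adj1).image adj2

theorem GG_card (V : ℕ) (hV : 1 ≤ V) : (V : ℝ) ^ 2 / 32 ≤ ((GG V).card : ℝ) := by
  have h1 := coprime_count V hV
  have h2 := adj1_fib (cpp V)
  have h3 := adj2_fib ((cpp V).image adj1)
  have h4 : (cpp V).card ≤ 4 * (GG V).card := by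
    unfold GG
    omega
  have h5 : ((cpp V).card : ℝ) ≤ 4 * ((GG V).card : ℝ) := by exact_mod_cast h4
  linarith

theorem GG_mem {V : ℕ} {p : ℕ × ℕ} (hp : p ∈ GG V) : 0 < p.1 ∧ 0 < p.2 ∧ Nat.Coprime p.1 p.2 ∧
    p.2 % 2 = 1 ∧ p.1 % 3 ≠ 0 ∧ p.1 ≤ 3 * V ∧ p.2 ≤ 2 * V := by
  unfold GG at hp
  obtain ⟨q, hq, rfl⟩ := mem_image.1 hp
  have hq' : 0 < q.1 ∧ 0 < q.2 ∧ Nat.Coprime q.1 q.2 ∧ q.2 % 2 = 1 ∧ q.1 ≤ V ∧ q.2 ≤ 2 * V := by
    obtain ⟨r, hr, rfl⟩ := mem_image.1 hq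
    rw [cpp, mem_filter, mem_product, mem_Ioc, mem_Ioc] at hr
    obtain ⟨⟨⟨a1, a2⟩, a3, a4⟩, a5, a6⟩ := hr
    unfold adj1
    split_ifs with h
    · exact ⟨a1, a3, a6, h, a2, by omega⟩
    · simp only
      refine ⟨a1, by omega, ?_, ?_, a2, by omega⟩
      · rw [Nat.coprime_self_add_right]
        exact a6
      · have h2 : r.2 % 2 = 0 := by omega
        have h1 : r.1 % 2 ≠ 0 := by
          intro h1
          exact Nat.not_coprime_of_dvd_of_dvd (by norm_num : 1 < 2) (Nat.dvd_of_mod_eq_zero h1)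
            (Nat.dvd_of_mod_eq_zero h2) a6
        omega
  obtain ⟨b1, b2, b3, b4, b5, b6⟩ := hq'
  unfold adj2
  split_ifs with h
  · simp only
    refine ⟨by omega, b2, ?_, b4, ?_, by omega, b6⟩
    · rw [Nat.coprime_add_self_left]
      exact b3
    · intro h1
      have h2 : q.2 % 3 = 0 := by omega
      exact Nat.not_coprime_of_dvd_of_dvd (by norm_num : 1 < 3) (Nat.dvd_of_mod_eq_zero h)
        (Nat.dvd_of_mod_eq_zero h2) b3
  · exact ⟨b1, b2, b3, b4, h, by omega, b6⟩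

theorem cop_two_three {k j m n : ℕ} (hc : Nat.Coprime m n) (hn : n % 2 = 1) (hm : m % 3 ≠ 0) :
    Nat.Coprime (2 ^ k * m) (3 ^ j * n) := by
  have h1 : Nat.Coprime 2 n := (Nat.Prime.coprime_iff_not_dvd Nat.prime_two).2 (by omega)
  have h2 : Nat.Coprime 3 m := (Nat.Prime.coprime_iff_not_dvd Nat.prime_three).2 (by omega)
  refine Nat.Coprime.mul_left (Nat.Coprime.mul_right ?_ ?_) (Nat.Coprime.mul_right ?_ hc)
  · exact Nat.Coprime.pow _ _ (by norm_num)
  · exact Nat.Coprime.pow_left _ h1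
  · exact (Nat.Coprime.pow_left _ h2).symm

/-- integers in an interval of length less than `W` -/
theorem card_short {W : ℝ} (hW : 0 ≤ W) (S : Finset ℕ)
    (h : ∀ x ∈ S, ∀ y ∈ S, ((x : ℝ) - y) ≤ W) : (S.card : ℝ) ≤ W + 1 := by
  rcases S.eq_empty_or_nonempty with rfl | hne
  · rw [card_empty, Nat.cast_zero]
    linarith
  obtain ⟨m0, hm0, hmin⟩ := Finset.exists_min_image S id hne
  have h1 : S ⊆ Finset.Icc m0 (m0 + ⌊W⌋₊) := by
    intro x hx
    have h2 : m0 ≤ x := hmin x hx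
    have h3 := h x hx m0 hm0
    rw [mem_Icc]
    refine ⟨h2, ?_⟩
    have h4 : x - m0 ≤ ⌊W⌋₊ := by
      refine Nat.le_floor ?_
      rw [Nat.cast_sub h2]
      exact h3
    omega
  have h2 := card_le_card h1
  rw [Nat.card_Icc] at h2
  have h3 : S.card ≤ ⌊W⌋₊ + 1 := by omega
  have h4 : (⌊W⌋₊ : ℝ) ≤ W := Nat.floor_le hW
  have h5 : (S.card : ℝ) ≤ (⌊W⌋₊ : ℝ) + 1 := by exact_mod_cast h3
  linarith

/-- few pairs make a linear form small -/
theorem few_small {V : ℕ} {t κ : ℝ} (ht : 0 < t) (hκ : 0 ≤ κ) {a b : ℝ} (ha : t ≤ |a|)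
    (S : Finset (ℕ × ℕ)) (hS : ∀ x ∈ S, x.1 ≤ 3 * V ∧ 0 < x.2 ∧ x.2 ≤ 3 * V ∧
      |a * x.1 + b * x.2| < κ * (t * V)) :
    (S.card : ℝ) ≤ 3 * V * (2 * κ * V + 1) := by
  classical
  have hV0 : (0 : ℝ) ≤ V := Nat.cast_nonneg _
  have h1 : (S.card : ℝ) ≤ ∑ n ∈ Finset.Icc 1 (3 * V), ((S.filter fun x => x.2 = n).card : ℝ) := by
    have h2 : S ⊆ (Finset.Icc 1 (3 * V)).biUnion fun n => S.filter fun x => x.2 = n := by
      intro x hx
      rw [mem_biUnion]
      obtain ⟨-, a1, a2, -⟩ := hS x hx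
      exact ⟨x.2, mem_Icc.2 ⟨a1, a2⟩, mem_filter.2 ⟨hx, rfl⟩⟩
    exact_mod_cast (card_le_card h2).trans card_biUnion_le
  have h2 : ∀ n ∈ Finset.Icc 1 (3 * V), ((S.filter fun x => x.2 = n).card : ℝ) ≤
      2 * κ * V + 1 := by
    intro n _
    have h3 : (S.filter fun x => x.2 = n).card = ((S.filter fun x => x.2 = n).image Prod.fst).card := by
      rw [card_image_of_injOn]
      intro x hx y hy hxy
      have e1 := (mem_filter.1 (mem_coe.1 hx)).2
      have e2 := (mem_filter.1 (mem_coe.1 hy)).2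
      exact Prod.ext hxy (e1.trans e2.symm)
    rw [h3]
    refine card_short (by positivity) _ ?_
    intro m hm m' hm'
    obtain ⟨x, hx, rfl⟩ := mem_image.1 hm
    obtain ⟨y, hy, rfl⟩ := mem_image.1 hm'
    obtain ⟨x1, x2⟩ := mem_filter.1 hx
    obtain ⟨y1, y2⟩ := mem_filter.1 hy
    obtain ⟨-, -, -, x3⟩ := hS x x1
    obtain ⟨-, -, -, y3⟩ := hS y y1
    rw [x2] at x3
    rw [y2] at y3
    have h4 : |a * ((x.1 : ℝ) - y.1)| ≤ κ * (t * V) + κ * (t * V) := by
      have e : a * ((x.1 : ℝ) - y.1) = (a * x.1 + b * n) - (a * y.1 + b * n) := by ring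
      rw [e]
      exact (abs_sub _ _).trans (add_le_add x3.le y3.le)
    rw [abs_mul] at h4
    have h5 : t * ((x.1 : ℝ) - y.1) ≤ t * (2 * κ * V) := by
      calc t * ((x.1 : ℝ) - y.1) ≤ t * |(x.1 : ℝ) - y.1| :=
            mul_le_mul_of_nonneg_left (le_abs_self _) ht.le
        _ ≤ |a| * |(x.1 : ℝ) - y.1| := mul_le_mul_of_nonneg_right ha (abs_nonneg _)
        _ ≤ κ * (t * V) + κ * (t * V) := h4
        _ = _ := by ring
    exact le_of_mul_le_mul_left h5 ht
  refine h1.trans ((Finset.sum_le_sum h2).trans (le_of_eq ?_))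
  rw [sum_const, Nat.card_Icc, nsmul_eq_mul]
  push_cast
  simp

end Pool.Agent.K1H71.PL
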