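import Pool.Agent.Y679.Kf.Good
import Pool.Agent.H785R2.ABC.A12
import Pool.Agent.H785R2.ABC.A345

/-! Points of the projective line over the rationals: the number of the points whose values have
given divisors (helper71). -/

set_option autoImplicit false

namespace Pool.Agent.K1H71.PL

open Finset
open Pool.Agent.TH867.QF (Fm ev va rs Rs Rs_pos rs_dvd Pt U U_pos ht ht_pos va_pos va_le dt dt_le
  cross1 cross2 dvd_rs)
open Pool.Agent.Y679.Kf (rd rd_pos rd_dvd)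

variable {r : ℕ}

theorem prod_dvd {ι : Type*} [DecidableEq ι] (s : Finset ι) (E : ι → ℕ) {M R : ℕ}
    (h : ∀ i ∈ s, E i ∣ M) (hg : ∀ i ∈ s, ∀ j ∈ s, i ≠ j → Nat.gcd (E i) (E j) ∣ R) :
    ∏ i ∈ s, E i ∣ M * R ^ (s.card ^ 2) := by
  induction s using Finset.induction_on with
  | empty => simp
  | insert a s ha ih =>
    rw [Finset.prod_insert ha, Finset.card_insert_of_notMem ha]
    have h1 := ih (fun i hi => h i (mem_insert_of_mem hi))
      (fun i hi j hj => hg i (mem_insert_of_mem hi) j (mem_insert_of_mem hj))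
    have h2 : E a ∣ M * R ^ (s.card ^ 2) := (h a (mem_insert_self a s)).mul_right _
    have h3 : Nat.gcd (E a) (∏ i ∈ s, E i) ∣ R ^ s.card := by
      have h4 : Nat.gcd (E a) (∏ i ∈ s, E i) ∣ ∏ i ∈ s, Nat.gcd (E a) (E i) := by
        clear ih h1 h2
        have aux : ∀ t : Finset ι, Nat.gcd (E a) (∏ i ∈ t, E i) ∣ ∏ i ∈ t, Nat.gcd (E a) (E i) := by
          intro t
          induction t using Finset.induction_on with
          | empty => simp
          | insert b t hb iht =>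
            rw [Finset.prod_insert hb, Finset.prod_insert hb]
            exact (Nat.gcd_mul_right_dvd_mul_gcd _ _ _).trans (mul_dvd_mul_left _ iht)
        exact aux s
      refine h4.trans ?_
      rw [← Finset.prod_const]
      refine Finset.prod_dvd_prod_of_dvd _ _ fun i hi => ?_
      exact hg a (mem_insert_self a s) i (mem_insert_of_mem hi) (by rintro rfl; exact ha hi)
    have h4 : E a * ∏ i ∈ s, E i = Nat.gcd (E a) (∏ i ∈ s, E i) * Nat.lcm (E a) (∏ i ∈ s, E i) :=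
      (Nat.gcd_mul_lcm _ _).symm
    rw [h4]
    have h5 : Nat.lcm (E a) (∏ i ∈ s, E i) ∣ M * R ^ (s.card ^ 2) := Nat.lcm_dvd h2 h1
    refine (mul_dvd_mul h3 h5).trans ?_
    have e : R ^ s.card * (M * R ^ (s.card ^ 2)) = M * R ^ (s.card ^ 2 + s.card) := by
      rw [pow_add]; ring
    rw [e]
    refine mul_dvd_mul_left _ (pow_dvd_pow _ ?_)
    nlinarith

theorem ex_ne (hr : 2 ≤ r) (i : Fin r) : ∃ j : Fin r, i ≠ j := by
  by_contra hcon
  push Not at hcon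
  have e1 := hcon ⟨0, by omega⟩
  have e2 := hcon ⟨1, by omega⟩
  rw [e1] at e2
  exact absurd (Fin.mk.inj_iff.1 e2) (by norm_num)

theorem dvd_dt (hr : 2 ≤ r) {L : Fm r} {E : Fin r → ℕ} {P P' : ℤ × ℤ} (hP : ∀ i, E i ∣ va L P i)
    (hP' : ∀ i, E i ∣ va L P' i) (i : Fin r) : E i ∣ Rs L * (dt P P').natAbs := by
  obtain ⟨j, hj⟩ := ex_ne hr i
  have h1 : (E i : ℤ) ∣ ev L P i := Int.natCast_dvd.2 (hP i)
  have h2 : (E i : ℤ) ∣ ev L P' i := Int.natCast_dvd.2 (hP' i)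
  have h3 : (E i : ℤ) ∣ rs L i j * dt P P' := by
    have e : rs L i j * dt P P' = ev L P i * ev L P' j - ev L P' i * ev L P j := by
      unfold rs dt ev; ring
    rw [e]
    exact dvd_sub (h1.mul_right _) (h2.mul_right _)
  have h4 : E i ∣ (rs L i j).natAbs * (dt P P').natAbs := by
    rw [← Int.natAbs_mul]
    exact Int.natCast_dvd.1 h3
  exact h4.trans (mul_dvd_mul_right (rs_dvd L hj) _)

theorem prod_dvd_dt (hr : 2 ≤ r) {L : Fm r} {E : Fin r → ℕ} {P P' : ℤ × ℤ} (hpt : Pt L P)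
    (hP : ∀ i, E i ∣ va L P i) (hP' : ∀ i, E i ∣ va L P' i) :
    ∏ i, E i ∣ Rs L ^ (r ^ 2 + 1) * (dt P P').natAbs := by
  have h1 := prod_dvd (Finset.univ : Finset (Fin r)) E (M := Rs L * (dt P P').natAbs) (R := Rs L)
    (fun i _ => dvd_dt hr hP hP' i) (fun i _ j _ hij => by
      have h2 : ((Nat.gcd (E i) (E j) : ℕ) : ℤ) ∣ ev L P i :=
        Int.natCast_dvd.2 ((Nat.gcd_dvd_left _ _).trans (hP i))
      have h3 : ((Nat.gcd (E i) (E j) : ℕ) : ℤ) ∣ ev L P j :=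
        Int.natCast_dvd.2 ((Nat.gcd_dvd_right _ _).trans (hP j))
      exact (Int.natCast_dvd.1 (dvd_rs hpt h2 h3)).trans (rs_dvd L hij))
  rw [Finset.card_univ, Fintype.card_fin] at h1
  refine h1.trans (dvd_of_eq ?_)
  rw [pow_succ]; ring

/-- points with the same determinant with a given point, of the same size -/
theorem fib7 {T : ℝ} {P0 : ℤ × ℤ} (hc : IsCoprime P0.1 P0.2) (h0 : T / 2 < (ht P0 : ℝ)) (v : ℤ)
    (F : Finset (ℤ × ℤ)) (hF : ∀ P ∈ F, (ht P : ℝ) ≤ T ∧ dt P0 P = v) : F.card ≤ 7 := by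
  classical
  rcases F.eq_empty_or_nonempty with rfl | ⟨P1, hP1⟩
  · simp
  obtain ⟨x, y, hxy⟩ := hc
  obtain ⟨τ, hτ⟩ : ∃ τ : ℤ × ℤ → ℤ, τ = fun P => x * (P.1 - P1.1) + y * (P.2 - P1.2) := ⟨_, rfl⟩
  have hd1 := (hF P1 hP1).2
  have hkey : ∀ P ∈ F, P.1 - P1.1 = τ P * P0.1 ∧ P.2 - P1.2 = τ P * P0.2 := by
    intro P hP
    have hd := (hF P hP).2
    rw [← hd1] at hd
    unfold dt at hd
    rw [hτ]
    simp only
    constructor
    · linear_combination (-(P.1 - P1.1)) * hxy - y * hd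
    · linear_combination (-(P.2 - P1.2)) * hxy + x * hd
  have hmem : ∀ P ∈ F, τ P ∈ Finset.Icc (-3 : ℤ) 3 := by
    intro P hP
    obtain ⟨k1, k2⟩ := hkey P hP
    have a1 := (hF P hP).1
    have a2 := (hF P1 hP1).1
    have b1 : (P.1.natAbs : ℝ) ≤ T := le_trans (by exact_mod_cast le_max_left _ _) a1
    have b2 : (P.2.natAbs : ℝ) ≤ T := le_trans (by exact_mod_cast le_max_right _ _) a1
    have b3 : (P1.1.natAbs : ℝ) ≤ T := le_trans (by exact_mod_cast le_max_left _ _) a2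
    have b4 : (P1.2.natAbs : ℝ) ≤ T := le_trans (by exact_mod_cast le_max_right _ _) a2
    have c1 : ((τ P).natAbs : ℝ) * P0.1.natAbs ≤ 2 * T := by
      have : (τ P).natAbs * P0.1.natAbs ≤ P.1.natAbs + P1.1.natAbs := by
        rw [← Int.natAbs_mul, ← k1]
        exact Int.natAbs_sub_le _ _
      have h : ((τ P).natAbs : ℝ) * P0.1.natAbs ≤ P.1.natAbs + P1.1.natAbs := by exact_mod_cast this
      linarith
    have c2 : ((τ P).natAbs : ℝ) * P0.2.natAbs ≤ 2 * T := by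
      have : (τ P).natAbs * P0.2.natAbs ≤ P.2.natAbs + P1.2.natAbs := by
        rw [← Int.natAbs_mul, ← k2]
        exact Int.natAbs_sub_le _ _
      have h : ((τ P).natAbs : ℝ) * P0.2.natAbs ≤ P.2.natAbs + P1.2.natAbs := by exact_mod_cast this
      linarith
    have c3 : ((τ P).natAbs : ℝ) * ht P0 ≤ 2 * T := by
      rcases max_choice P0.1.natAbs P0.2.natAbs with h | h
      · unfold ht; rw [h]; exact c1
      · unfold ht; rw [h]; exact c2
    have hT0 : 0 ≤ T := le_trans (Nat.cast_nonneg _) a1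
    have hh : (0 : ℝ) < ht P0 := by linarith
    have c4 : ((τ P).natAbs : ℝ) < 4 := by
      by_contra hcon
      push Not at hcon
      have : 4 * (ht P0 : ℝ) ≤ 2 * T := (mul_le_mul_of_nonneg_right hcon hh.le).trans c3
      linarith
    have c5 : (τ P).natAbs < 4 := by exact_mod_cast c4
    rw [mem_Icc]
    omega
  have hinj : Set.InjOn τ (F : Set (ℤ × ℤ)) := by
    intro P hP Q hQ hPQ
    obtain ⟨k1, k2⟩ := hkey P hP
    obtain ⟨l1, l2⟩ := hkey Q hQ
    rw [hPQ, ← l1] at k1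
    rw [hPQ, ← l2] at k2
    exact Prod.ext (by linarith) (by linarith)
  have := Finset.card_le_card_of_injOn τ hmem hinj
  simpa using this

/-- **points whose values have given divisors** -/
theorem lat (hr : 2 ≤ r) (L : Fm r) (i0 : Fin r) (E : Fin r → ℕ) (hE : ∀ i, 0 < E i) {T Z : ℝ}
    (hT : 0 ≤ T) (hZ : 0 ≤ Z) (F : Finset (ℤ × ℤ)) (hF : ∀ P ∈ F, Pt L P ∧ T / 2 < (ht P : ℝ) ∧
      (ht P : ℝ) ≤ T ∧ (va L P i0 : ℝ) ≤ Z ∧ ∀ i, E i ∣ va L P i) :
    (F.card : ℝ) ≤ 7 * (4 * U L * (Rs L : ℝ) ^ (r ^ 2 + 1) * (Z * T) / ∏ i, (E i : ℝ) + 1) := by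
  classical
  haveI : NeZero r := ⟨by omega⟩
  have hRs0 : (0 : ℝ) < Rs L := by exact_mod_cast Rs_pos L
  have hU0 : (0 : ℝ) < U L := by exact_mod_cast U_pos L
  have hEp : 0 < ∏ i, E i := Finset.prod_pos fun i _ => hE i
  have hEp' : (0 : ℝ) < ∏ i, (E i : ℝ) := by exact_mod_cast hEp
  rcases F.eq_empty_or_nonempty with rfl | ⟨P0, hP0⟩
  · rw [card_empty, Nat.cast_zero]
    positivity
  obtain ⟨p1, p2, p3, p4, p5⟩ := hF P0 hP0
  obtain ⟨Q, hQ⟩ : ∃ Q : ℕ, Q = Rs L ^ (r ^ 2 + 1) := ⟨_, rfl⟩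
  have hQ0 : 0 < Q := by rw [hQ]; exact pow_pos (Rs_pos L) _
  obtain ⟨g, hg⟩ : ∃ g : ℕ, g = Nat.gcd (∏ i, E i) Q := ⟨_, rfl⟩
  have hg0 : 0 < g := by rw [hg]; exact Nat.gcd_pos_of_pos_left _ hEp
  obtain ⟨e, he⟩ : g ∣ ∏ i, E i := by rw [hg]; exact Nat.gcd_dvd_left _ _
  have he0 : 0 < e := by
    rw [Nat.pos_iff_ne_zero]
    rintro rfl
    rw [mul_zero] at he
    omega
  have hgQ : g ≤ Q := by rw [hg]; exact Nat.gcd_le_right _ hQ0
  have hdv : ∀ P ∈ F, e ∣ (dt P0 P).natAbs := by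
    intro P hP
    have h1 := prod_dvd_dt hr p1 p5 (hF P hP).2.2.2.2
    rw [← hQ] at h1
    obtain ⟨Q', hQ'⟩ : g ∣ Q := by rw [hg]; exact Nat.gcd_dvd_right _ _
    have h2 : Nat.Coprime e Q' := by
      have h3 := hg
      rw [he, hQ', Nat.gcd_mul_left] at h3
      have h4 : g * Nat.gcd e Q' = g * 1 := by rw [mul_one]; exact h3.symm
      exact Nat.eq_of_mul_eq_mul_left hg0 h4
    rw [he, hQ', mul_assoc] at h1
    exact h2.dvd_of_dvd_mul_left (Nat.dvd_of_mul_dvd_mul_left hg0 h1)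
  obtain ⟨B, hB⟩ : ∃ B : ℕ, B = ⌊2 * U L * (Z * T)⌋₊ := ⟨_, rfl⟩
  have hBle : (B : ℝ) ≤ 2 * U L * (Z * T) := by rw [hB]; exact Nat.floor_le (by positivity)
  have hdB : ∀ P ∈ F, (dt P0 P).natAbs ≤ B := by
    intro P hP
    obtain ⟨q1, q2, q3, q4, q5⟩ := hF P hP
    rw [hB]
    refine Nat.le_floor ?_
    have h1 : ((dt P0 P).natAbs : ℝ) ≤ U L * (va L P0 i0 * ht P + va L P i0 * ht P0) := by
      exact_mod_cast dt_le L hr P0 P i0
    have h2 : (va L P0 i0 : ℝ) * ht P ≤ Z * T := mul_le_mul p4 q3 (Nat.cast_nonneg _) hZ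
    have h3 : (va L P i0 : ℝ) * ht P0 ≤ Z * T := mul_le_mul q4 p3 (Nat.cast_nonneg _) hZ
    calc ((dt P0 P).natAbs : ℝ) ≤ U L * (va L P0 i0 * ht P + va L P i0 * ht P0) := h1
      _ ≤ U L * (Z * T + Z * T) := mul_le_mul_of_nonneg_left (add_le_add h2 h3) hU0.le
      _ = _ := by ring
  have h7 : F.card ≤ 7 * (F.image (fun P => dt P0 P)).card := by
    refine card_le_mul_card_image F 7 fun v _ => ?_
    refine fib7 p1.cop p2 v _ fun P hP => ?_
    obtain ⟨h1, h2⟩ := mem_filter.1 hP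
    exact ⟨(hF P h1).2.2.1, h2⟩
  have him : (F.image (fun P => dt P0 P)).card ≤ 2 * (B / e) + 1 := by
    have h1 : (F.image (fun P => dt P0 P)).card ≤
        (Finset.Icc (-((B / e : ℕ) : ℤ)) ((B / e : ℕ) : ℤ)).card := by
      refine Finset.card_le_card_of_injOn (fun v => v / (e : ℤ)) ?_ ?_
      · intro v hv
        obtain ⟨P, hP, rfl⟩ := mem_image.1 (mem_coe.1 hv)
        obtain ⟨c, hc⟩ := Int.natCast_dvd.2 (hdv P hP)
        have h2 := hdB P hP
        simp only at hc ⊢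
        rw [hc, Int.natAbs_mul, Int.natAbs_natCast] at h2
        rw [hc, Int.mul_ediv_cancel_left _ (by exact_mod_cast he0.ne'), mem_coe, mem_Icc]
        have h3 : c.natAbs ≤ B / e := by
          rw [Nat.le_div_iff_mul_le he0, mul_comm]
          exact h2
        omega
      · intro v hv w hw hvw
        obtain ⟨P, hP, rfl⟩ := mem_image.1 (mem_coe.1 hv)
        obtain ⟨P', hP', rfl⟩ := mem_image.1 (mem_coe.1 hw)
        obtain ⟨c, hc⟩ := Int.natCast_dvd.2 (hdv P hP)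
        obtain ⟨c', hc'⟩ := Int.natCast_dvd.2 (hdv P' hP')
        simp only at hc hc' hvw ⊢
        have he' : (e : ℤ) ≠ 0 := by exact_mod_cast he0.ne'
        rw [hc, hc', Int.mul_ediv_cancel_left _ he', Int.mul_ediv_cancel_left _ he'] at hvw
        rw [hc, hc', hvw]
    refine h1.trans (le_of_eq ?_)
    rw [Int.card_Icc]
    omega
  have h8 : (F.card : ℝ) ≤ 7 * (2 * ((B / e : ℕ) : ℝ) + 1) := by
    exact_mod_cast h7.trans (Nat.mul_le_mul_left _ him)
  refine h8.trans (mul_le_mul_of_nonneg_left (add_le_add ?_ le_rfl) (by norm_num))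
  have he1 : (0 : ℝ) < e := by exact_mod_cast he0
  have h9 : ((B / e : ℕ) : ℝ) ≤ B / e := Nat.cast_div_le
  have h10 : (∏ i, (E i : ℝ)) = g * e := by exact_mod_cast he
  have hg1 : (0 : ℝ) < g := by exact_mod_cast hg0
  have hgQ' : (g : ℝ) ≤ (Rs L : ℝ) ^ (r ^ 2 + 1) := by
    have : (g : ℝ) ≤ Q := by exact_mod_cast hgQ
    rw [hQ] at this
    exact_mod_cast this
  rw [h10]
  calc 2 * ((B / e : ℕ) : ℝ) ≤ 2 * ((2 * U L * (Z * T)) / e) :=
        mul_le_mul_of_nonneg_left (h9.trans (div_le_div_of_nonneg_right hBle he1.le)) (by norm_num)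
    _ = 4 * U L * g * (Z * T) / (g * e) := by field_simp; ring
    _ ≤ 4 * U L * (Rs L : ℝ) ^ (r ^ 2 + 1) * (Z * T) / (g * e) := by
        gcongr

end Pool.Agent.K1H71.PL
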