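import Pool.Agent.K1H71.PL.Dy

/-! Points of the projective line over the rationals, of all heights: the tails (helper71). -/

set_option autoImplicit false

namespace Pool.Agent.K1H71.PL

open Finset
open Pool.Agent.TH867.QF (Fm ev va rs Rs Rs_pos rs_dvd Pt U U_pos ht ht_pos va_pos va_le)
open Pool.Agent.Y679.Kf (rd rd_pos rd_dvd lr_rd sr line_tall sr_nonneg)
open Pool.Agent.TH867.SQ (lr)

/-- the number of the blocks -/
theorem blocks_le {ε : ℝ} (hε : 0 < ε) : ∃ G : ℝ, 0 < G ∧ ∀ X : ℝ, 1 ≤ X →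
    (⌊Real.log (2 * X) / Real.log 2⌋₊ : ℝ) + 1 ≤ G * X ^ ε := by
  refine ⟨3 + 2 / ε, by positivity, fun X hX => ?_⟩
  have hX0 : 0 < X := by linarith
  have hl2 : 0 < Real.log 2 := Real.log_pos (by norm_num)
  have hl2' : (1 : ℝ) / 2 ≤ Real.log 2 := by
    have := Real.log_two_gt_d9
    linarith
  have hl2'' : Real.log 2 ≤ 1 := by
    have := Real.log_two_lt_d9
    linarith
  have hlX := Real.log_nonneg hX
  have h0 : Real.log (2 * X) = Real.log 2 + Real.log X := Real.log_mul (by norm_num) hX0.ne'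
  have h1 : (⌊Real.log (2 * X) / Real.log 2⌋₊ : ℝ) ≤ Real.log (2 * X) / Real.log 2 :=
    Nat.floor_le (div_nonneg (by rw [h0]; positivity) hl2.le)
  have h2 : Real.log (2 * X) / Real.log 2 ≤ 1 + 2 * Real.log X := by
    rw [div_le_iff₀ hl2, h0]
    nlinarith
  have h4 : Real.log X ≤ X ^ ε / ε := Real.log_le_rpow_div hX0.le hε
  have h5 : 1 ≤ X ^ ε := Real.one_le_rpow hX hε.le
  have h6 : X ^ ε / ε = 1 / ε * X ^ ε := by ring
  rw [h6] at h4
  calc (⌊Real.log (2 * X) / Real.log 2⌋₊ : ℝ) + 1 ≤ 2 + 2 * Real.log X := by linarith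
    _ ≤ 3 * X ^ ε + 2 * (1 / ε * X ^ ε) := by linarith
    _ = _ := by ring

/-- **The tails.** -/
theorem tail {d : ℕ} (L : Fm (d + 3)) : ∃ θ : ℝ, 0 < θ ∧ ∀ ε : ℝ, 0 < ε → ∃ C : ℝ, 0 < C ∧
    ∀ X T : ℝ, 1 ≤ X → 1 ≤ T → T ≤ X ^ (1 / ((d : ℝ) + 3) + θ) → ∀ F : Finset (ℤ × ℤ),
    (∀ P ∈ F, Pt L P ∧ sr L P ≤ Real.log X ∧ T ≤ (ht P : ℝ)) →
    (F.card : ℝ) ≤ C * (X ^ (1 + ε) * (T ^ (d + 1))⁻¹) := by
  classical
  obtain ⟨q, hq⟩ : ∃ q : ℝ, q = (d : ℝ) + 3 := ⟨_, rfl⟩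
  have hd0 : (0 : ℝ) ≤ d := Nat.cast_nonneg _
  have hq3 : 3 ≤ q := by rw [hq]; linarith
  have hq0 : 0 < q := by linarith
  have hq1 : 1 / q ≤ 1 / 3 := one_div_le_one_div_of_le (by norm_num) hq3
  have hqi : 0 < 1 / q := by positivity
  obtain ⟨δ, hδ⟩ : ∃ δ : ℝ, δ = 1 / (4 * q ^ 2) := ⟨_, rfl⟩
  have hδ0 : 0 < δ := by rw [hδ]; positivity
  have hδ1 : δ ≤ 1 / 36 := by
    rw [hδ]
    exact one_div_le_one_div_of_le (by norm_num) (by nlinarith)
  obtain ⟨ν, hν, hν1, C2, hC2, htall⟩ := line_tall L δ hδ0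
  rw [← hq] at hν1 htall
  obtain ⟨μ, hμ⟩ : ∃ μ : ℝ, μ = min ν (1 / (2 * q ^ 2)) := ⟨_, rfl⟩
  have hμ0 : 0 < μ := by rw [hμ]; exact lt_min hν (by positivity)
  have hμ1 : μ ≤ ν := by rw [hμ]; exact min_le_left _ _
  have hμ2 : μ ≤ 1 / (2 * q ^ 2) := by rw [hμ]; exact min_le_right _ _
  refine ⟨μ / ((d : ℝ) + 1), by positivity, fun ε hε => ?_⟩
  obtain ⟨C1, hC1, hdy⟩ := dyadic L (ε / 2) (by positivity)
  rw [← hq] at hdy
  obtain ⟨G, hG, hGX⟩ := blocks_le (ε := ε / 2) (by positivity)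
  refine ⟨C2 + G * (C1 * (2 ^ (ε / 2) * 5)), by positivity, fun X T hX hT hTX F hF => ?_⟩
  rw [← hq] at hTX
  have hX0 : 0 < X := by linarith
  have hT0 : 0 < T := by linarith
  have hlX := Real.log_nonneg hX
  -- the main term is large
  have hmain : X ^ (2 / q - μ) ≤ X * (T ^ (d + 1))⁻¹ := by
    have h1 : T ^ (d + 1) ≤ X ^ ((1 / q + μ / ((d : ℝ) + 1)) * ((d : ℝ) + 1)) := by
      have h2 := pow_le_pow_left₀ hT0.le hTX (d + 1)
      refine h2.trans (le_of_eq ?_)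
      rw [← Real.rpow_natCast, ← Real.rpow_mul hX0.le]
      push_cast
      rfl
    have h2 : (1 / q + μ / ((d : ℝ) + 1)) * ((d : ℝ) + 1) = 1 - 2 / q + μ := by
      have : (d : ℝ) + 1 = q - 2 := by rw [hq]; ring
      rw [this]
      have h3 : q - 2 ≠ 0 := by linarith
      field_simp
    rw [h2] at h1
    have h3 : X ^ (2 / q - μ) = X * (X ^ (1 - 2 / q + μ))⁻¹ := by
      rw [← Real.rpow_neg hX0.le]
      nth_rewrite 2 [← Real.rpow_one X]
      rw [← Real.rpow_add hX0]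
      congr 1
      ring
    rw [h3]
    exact mul_le_mul_of_nonneg_left (inv_anti₀ (by positivity) h1) hX0.le
  obtain ⟨E, hE⟩ : ∃ E : ℝ, E = X * (T ^ (d + 1))⁻¹ := ⟨_, rfl⟩
  rw [← hE] at hmain
  have hE0 : 0 < E := by rw [hE]; positivity
  obtain ⟨K, hK⟩ : ∃ K : ℕ, K = ⌊Real.log (2 * X) / Real.log 2⌋₊ := ⟨_, rfl⟩
  have hK1 := hGX X hX
  rw [← hK] at hK1
  have hl2 : 0 < Real.log 2 := Real.log_pos (by norm_num)
  obtain ⟨F1, hF1⟩ : ∃ F1 : Finset (ℤ × ℤ), F1 = F.filter fun P =>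
    (1 / q + δ) * Real.log X ≤ Real.log (ht P) := ⟨_, rfl⟩
  obtain ⟨F2, hF2⟩ : ∃ F2 : ℕ → Finset (ℤ × ℤ), F2 = fun k => F.filter fun P =>
    (ht P : ℝ) ≤ X ^ (1 / q + δ) ∧ (2 : ℝ) ^ k / 2 < (ht P : ℝ) ∧ (ht P : ℝ) ≤ 2 ^ k := ⟨_, rfl⟩
  have hXle : X ^ (1 / q + δ) ≤ X := by
    calc X ^ (1 / q + δ) ≤ X ^ (1 : ℝ) := Real.rpow_le_rpow_of_exponent_le hX (by linarith)
      _ = X := Real.rpow_one X
  have hcov : F ⊆ F1 ∪ (range (K + 1)).biUnion F2 := by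
    intro P hP
    obtain ⟨g1, g2, g3⟩ := hF P hP
    have hpos : 0 < ht P := ht_pos g1
    have hposR : (0 : ℝ) < ht P := by exact_mod_cast hpos
    rw [mem_union]
    by_cases c1 : (1 / q + δ) * Real.log X ≤ Real.log (ht P)
    · left
      rw [hF1]
      exact mem_filter.2 ⟨hP, c1⟩
    · right
      push Not at c1
      have h1 : (ht P : ℝ) ≤ X ^ (1 / q + δ) := by
        rw [← Real.log_le_log_iff hposR (by positivity), Real.log_rpow hX0]
        exact c1.le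
      obtain ⟨k, hk⟩ : ∃ k : ℕ, k = Nat.clog 2 (ht P) := ⟨_, rfl⟩
      have h2 : ht P ≤ 2 ^ k := by rw [hk]; exact Nat.le_pow_clog (by norm_num) _
      have h3 : (2 : ℝ) ^ k / 2 < (ht P : ℝ) := by
        rcases Nat.eq_zero_or_pos k with h0 | h0
        · rw [h0, pow_zero]
          have : (1 : ℝ) ≤ ht P := by exact_mod_cast hpos
          linarith
        · have h4 : 1 < ht P := by
            by_contra hcon
            have h5 : ht P ≤ 1 := by omega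
            have h6 : Nat.clog 2 (ht P) = 0 := Nat.clog_of_right_le_one h5 2
            omega
          have h5 := Nat.pow_pred_clog_lt_self (b := 2) (by norm_num) h4
          rw [← hk] at h5
          obtain ⟨k', rfl⟩ : ∃ k', k = k' + 1 := ⟨k - 1, by omega⟩
          have h6 : 2 ^ k' < ht P := by simpa using h5
          have h7 : (2 : ℝ) ^ k' < ht P := by exact_mod_cast h6
          rw [pow_succ]
          linarith
      rw [mem_biUnion]
      refine ⟨k, ?_, ?_⟩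
      · rw [mem_range, Nat.lt_succ_iff, hK]
        refine Nat.le_floor ?_
        rw [le_div_iff₀ hl2, ← Real.log_pow]
        refine Real.log_le_log (by positivity) ?_
        linarith
      · rw [hF2]
        exact mem_filter.2 ⟨hP, h1, h3, by exact_mod_cast h2⟩
  have e1 : (F1.card : ℝ) ≤ C2 * E := by
    have h1 := htall X hX F1 (fun P hP => by
      rw [hF1] at hP
      obtain ⟨h1, h2⟩ := mem_filter.1 hP
      obtain ⟨g1, g2, g3⟩ := hF P h1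
      exact ⟨g1, g2, h2⟩)
    refine h1.trans (mul_le_mul_of_nonneg_left ?_ hC2.le)
    exact (Real.rpow_le_rpow_of_exponent_le hX (by linarith)).trans hmain
  have e2 : ∀ k ∈ range (K + 1), ((F2 k).card : ℝ) ≤
      C1 * (2 ^ (ε / 2) * 5) * X ^ (ε / 2) * E := by
    intro k _
    rcases (F2 k).eq_empty_or_nonempty with h0 | ⟨P0, hP0⟩
    · rw [h0, card_empty, Nat.cast_zero]
      positivity
    rw [hF2] at hP0
    obtain ⟨p1, p2, p3, p4⟩ := mem_filter.1 hP0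
    obtain ⟨g1, g2, g3⟩ := hF P0 p1
    obtain ⟨τ, hτ⟩ : ∃ τ : ℝ, τ = 2 ^ k := ⟨_, rfl⟩
    rw [← hτ] at p3 p4
    have hτ1 : 1 ≤ τ := by rw [hτ]; exact one_le_pow₀ (by norm_num)
    have hτ0 : 0 < τ := by linarith
    have hTτ : T ≤ τ := g3.trans p4
    have hτX : τ ≤ 2 * X ^ (1 / q + δ) := by linarith
    have h1 := hdy τ X hτ1 hX (F2 k) (fun P hP => by
      rw [hF2] at hP
      obtain ⟨h1, h2, h3, h4⟩ := mem_filter.1 hP
      obtain ⟨g1, g2, g3⟩ := hF P h1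
      rw [hτ]
      exact ⟨g1, h3, h4, g2⟩)
    have h2 : τ ^ (ε / 2) ≤ 2 ^ (ε / 2) * X ^ (ε / 2) := by
      rw [← Real.mul_rpow (by norm_num) hX0.le]
      exact Real.rpow_le_rpow hτ0.le (by linarith) (by positivity)
    have h3 : X * (τ ^ (d + 1))⁻¹ ≤ E := by
      rw [hE]
      exact mul_le_mul_of_nonneg_left (inv_anti₀ (by positivity)
        (pow_le_pow_left₀ hT0.le hTτ _)) hX0.le
    have h4 : τ ^ (2 - 1 / q) ≤ 4 * E := by
      have h5 : τ ^ (2 - 1 / q) ≤ (2 * X ^ (1 / q + δ)) ^ (2 - 1 / q) :=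
        Real.rpow_le_rpow hτ0.le hτX (by linarith)
      refine h5.trans ?_
      rw [Real.mul_rpow (by norm_num) (by positivity), ← Real.rpow_mul hX0.le]
      have h6 : (2 : ℝ) ^ (2 - 1 / q) ≤ 4 := by
        calc (2 : ℝ) ^ (2 - 1 / q) ≤ 2 ^ (2 : ℝ) :=
              Real.rpow_le_rpow_of_exponent_le (by norm_num) (by linarith)
          _ = 4 := by norm_num
      have h7 : X ^ ((1 / q + δ) * (2 - 1 / q)) ≤ E := by
        refine le_trans (Real.rpow_le_rpow_of_exponent_le hX ?_) hmain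
        have e : (1 / q + δ) * (2 - 1 / q) = 2 / q - 1 / q ^ 2 + δ * (2 - 1 / q) := by
          field_simp
        rw [e]
        have h8 : δ * (2 - 1 / q) ≤ δ * 2 := mul_le_mul_of_nonneg_left (by linarith) hδ0.le
        have h9 : δ * 2 = 1 / (2 * q ^ 2) := by rw [hδ]; field_simp; norm_num
        have h10 : 1 / q ^ 2 = 1 / (2 * q ^ 2) + 1 / (2 * q ^ 2) := by field_simp; norm_num
        linarith
      exact mul_le_mul h6 h7 (by positivity) (by norm_num)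
    calc ((F2 k).card : ℝ) ≤ C1 * τ ^ (ε / 2) * (X * (τ ^ (d + 1))⁻¹ + τ ^ (2 - 1 / q)) := h1
      _ ≤ C1 * (2 ^ (ε / 2) * X ^ (ε / 2)) * (E + 4 * E) := by gcongr
      _ = _ := by ring
  have h1 : (F.card : ℝ) ≤ F1.card + ∑ k ∈ range (K + 1), ((F2 k).card : ℝ) := by
    exact_mod_cast (card_le_card hcov).trans ((card_union_le _ _).trans
      (Nat.add_le_add_left card_biUnion_le _))
  have h2 : ∑ k ∈ range (K + 1), ((F2 k).card : ℝ) ≤
      ((K : ℝ) + 1) * (C1 * (2 ^ (ε / 2) * 5) * X ^ (ε / 2) * E) := by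
    refine (Finset.sum_le_sum e2).trans (le_of_eq ?_)
    rw [sum_const, card_range, nsmul_eq_mul]
    push_cast
    ring
  have h3 : X ^ (ε / 2) * X ^ (ε / 2) = X ^ ε := by
    rw [← Real.rpow_add hX0]; congr 1; ring
  have h4 : 1 ≤ X ^ ε := Real.one_le_rpow hX hε.le
  calc (F.card : ℝ) ≤ C2 * E + ((K : ℝ) + 1) * (C1 * (2 ^ (ε / 2) * 5) * X ^ (ε / 2) * E) :=
        h1.trans (add_le_add e1 h2)
    _ ≤ C2 * (X ^ ε * E) + (G * X ^ (ε / 2)) * (C1 * (2 ^ (ε / 2) * 5) * X ^ (ε / 2) * E) := by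
        gcongr
        exact le_mul_of_one_le_left hE0.le h4
    _ = C2 * (X ^ ε * E) + G * (C1 * (2 ^ (ε / 2) * 5)) * ((X ^ (ε / 2) * X ^ (ε / 2)) * E) := by
        ring
    _ = _ := by
        rw [h3, hE, Real.rpow_add hX0, Real.rpow_one]
        ring

/-- **The violators.** -/
theorem viol_up {d : ℕ} (L : Fm (d + 3)) : ∃ M₀ : ℝ, 1 / ((d : ℝ) + 3) < M₀ ∧
    ∀ M : ℝ, 1 / ((d : ℝ) + 3) < M → M ≤ M₀ → ((d : ℝ) + 1) * M ≤ 1 → ∀ (R b ε : ℝ), 1 ≤ R →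
    0 < b → 0 < ε →
    ∃ C : ℝ, 0 < C ∧ ∀ (f : ℤ × ℤ → ℝ) (X : ℝ), 1 ≤ X → ∀ F : Finset (ℤ × ℤ),
    (∀ P ∈ F, Pt L P ∧ 1 ≤ f P ∧ f P ≤ X ∧ sr L P ≤ Real.log (R * f P) ∧
      b * f P ^ M ≤ (ht P : ℝ)) →
    (F.card : ℝ) ≤ C * X ^ (1 - ((d : ℝ) + 1) * M + ε) := by
  classical
  obtain ⟨θ, hθ, htail⟩ := tail L
  refine ⟨1 / ((d : ℝ) + 3) + θ, by linarith, fun M hM hM0 hM1 R₀ b ε hR₀ hb hε => ?_⟩
  obtain ⟨C, hC, h⟩ := htail (ε / 2) (by positivity)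
  obtain ⟨G, hG, hGX⟩ := blocks_le (ε := ε / 2) (by positivity)
  have hd0 : (0 : ℝ) ≤ d := Nat.cast_nonneg _
  have hMpos : 0 < M := lt_trans (by positivity) hM
  obtain ⟨R, hRd⟩ : ∃ R : ℝ, R = R₀ * (1 + b) ^ (d + 3) := ⟨_, rfl⟩
  have hbd : 1 ≤ (1 + b) ^ (d + 3) := one_le_pow₀ (by linarith)
  have hR : 1 ≤ R := by rw [hRd]; exact one_le_mul_of_one_le_of_one_le hR₀ hbd
  have hR₀R : R₀ ≤ R := by rw [hRd]; exact le_mul_of_one_le_right (by linarith) hbd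
  have hRb : (1 + b) ^ (d + 3) ≤ R := by rw [hRd]; exact le_mul_of_one_le_left (by positivity) hR₀
  refine ⟨G * (C * ((2 * R) ^ (1 + ε / 2) * (b ^ (d + 1))⁻¹)), by positivity,
    fun f X hX F hF => ?_⟩
  have hX0 : 0 < X := by linarith
  have hl2 : 0 < Real.log 2 := Real.log_pos (by norm_num)
  obtain ⟨J, hJ⟩ : ∃ J : ℕ, J = ⌊Real.log (2 * X) / Real.log 2⌋₊ := ⟨_, rfl⟩
  have hJ1 := hGX X hX
  rw [← hJ] at hJ1
  obtain ⟨F2, hF2⟩ : ∃ F2 : ℕ → Finset (ℤ × ℤ), F2 = fun j => F.filter fun P =>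
    (2 : ℝ) ^ j ≤ f P ∧ f P ≤ 2 ^ (j + 1) := ⟨_, rfl⟩
  have hcov : F ⊆ (range (J + 1)).biUnion F2 := by
    intro P hP
    obtain ⟨g1, g2, g3, g4, g5⟩ := hF P hP
    obtain ⟨j, hj1, hj2⟩ := exists_nat_pow_near g2 (by norm_num : (1 : ℝ) < 2)
    rw [mem_biUnion]
    refine ⟨j, ?_, ?_⟩
    · rw [mem_range, Nat.lt_succ_iff, hJ]
      refine Nat.le_floor ?_
      rw [le_div_iff₀ hl2, ← Real.log_pow]
      refine Real.log_le_log (by positivity) ?_
      linarith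
    · rw [hF2]
      exact mem_filter.2 ⟨hP, hj1, hj2.le⟩
  have e2 : ∀ j ∈ range (J + 1), ((F2 j).card : ℝ) ≤
      C * ((2 * R) ^ (1 + ε / 2) * (b ^ (d + 1))⁻¹) * X ^ (1 - ((d : ℝ) + 1) * M + ε / 2) := by
    intro j _
    rcases (F2 j).eq_empty_or_nonempty with h0 | ⟨P0, hP0⟩
    · rw [h0, card_empty, Nat.cast_zero]
      positivity
    rw [hF2] at hP0
    obtain ⟨p1, p2, p3⟩ := mem_filter.1 hP0
    obtain ⟨m, hm⟩ : ∃ m : ℝ, m = 2 ^ j := ⟨_, rfl⟩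
    rw [← hm] at p2
    have hm1 : 1 ≤ m := by rw [hm]; exact one_le_pow₀ (by norm_num)
    have hm0 : 0 < m := by linarith
    have hmX : m ≤ X := p2.trans (hF P0 p1).2.2.1
    have h2Rm : 1 ≤ 2 * R * m := by
      have : 1 ≤ R * m := one_le_mul_of_one_le_of_one_le hR hm1
      nlinarith
    have hmM : 1 ≤ m ^ M := Real.one_le_rpow hm1 hMpos.le
    have hbm : 0 < b * m ^ M := by positivity
    have hTX : max 1 (b * m ^ M) ≤ (2 * R * m) ^ (1 / ((d : ℝ) + 3) + θ) := by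
      have k1 : max 1 (b * m ^ M) ≤ (1 + b) * m ^ M := by
        refine max_le ?_ ?_
        · nlinarith
        · nlinarith
      have k2 : (1 + b) * m ^ M ≤ (1 + b) * m ^ (1 / ((d : ℝ) + 3) + θ) :=
        mul_le_mul_of_nonneg_left (Real.rpow_le_rpow_of_exponent_le hm1 hM0) (by positivity)
      have k3 : 1 + b ≤ ((1 + b) ^ (d + 3)) ^ (1 / ((d : ℝ) + 3) + θ) := by
        have k4 : 1 + b = ((1 + b) ^ (d + 3)) ^ (1 / ((d : ℝ) + 3)) := by
          rw [← Real.rpow_natCast (1 + b) (d + 3), ← Real.rpow_mul (by positivity)]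
          push_cast
          rw [mul_one_div, div_self (by positivity), Real.rpow_one]
        calc 1 + b = ((1 + b) ^ (d + 3)) ^ (1 / ((d : ℝ) + 3)) := k4
          _ ≤ _ := Real.rpow_le_rpow_of_exponent_le hbd (by linarith)
      have k5 : ((1 + b) ^ (d + 3)) ^ (1 / ((d : ℝ) + 3) + θ) ≤
          (2 * R) ^ (1 / ((d : ℝ) + 3) + θ) :=
        Real.rpow_le_rpow (by positivity) (by linarith) (by positivity)
      calc max 1 (b * m ^ M) ≤ (1 + b) * m ^ (1 / ((d : ℝ) + 3) + θ) := k1.trans k2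
        _ ≤ (2 * R) ^ (1 / ((d : ℝ) + 3) + θ) * m ^ (1 / ((d : ℝ) + 3) + θ) :=
            mul_le_mul_of_nonneg_right (k3.trans k5) (by positivity)
        _ = _ := (Real.mul_rpow (by positivity) hm0.le).symm
    have h1 := h (2 * R * m) (max 1 (b * m ^ M)) h2Rm (le_max_left _ _) hTX (F2 j) (fun P hP => by
      rw [hF2] at hP
      obtain ⟨h1, h2, h3⟩ := mem_filter.1 hP
      rw [← hm] at h2
      have h3' : f P ≤ 2 * m := by rw [hm, mul_comm, ← pow_succ]; exact h3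
      obtain ⟨g1, g2, g3, g4, g5⟩ := hF P h1
      refine ⟨g1, g4.trans ?_, max_le (by exact_mod_cast ht_pos g1) ?_⟩
      · refine Real.log_le_log (by positivity) ?_
        calc R₀ * f P ≤ R * f P := mul_le_mul_of_nonneg_right hR₀R (by linarith)
          _ ≤ R * (2 * m) := mul_le_mul_of_nonneg_left h3' (by linarith)
          _ = _ := by ring
      · exact (mul_le_mul_of_nonneg_left (Real.rpow_le_rpow hm0.le h2 hMpos.le) hb.le).trans g5)
    have h3 : ((max 1 (b * m ^ M)) ^ (d + 1))⁻¹ ≤ ((b * m ^ M) ^ (d + 1))⁻¹ :=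
      inv_anti₀ (by positivity) (pow_le_pow_left₀ hbm.le (le_max_right _ _) _)
    refine (h1.trans (mul_le_mul_of_nonneg_left (mul_le_mul_of_nonneg_left h3 (by positivity))
      hC.le)).trans ?_
    have h2 : ((m ^ M) ^ (d + 1))⁻¹ = m ^ (-(((d : ℝ) + 1) * M)) := by
      rw [← Real.rpow_natCast, ← Real.rpow_mul hm0.le, Real.rpow_neg hm0.le]
      push_cast
      congr 2
      ring
    have e : m ^ (1 + ε / 2) * m ^ (-(((d : ℝ) + 1) * M)) =
        m ^ (1 - ((d : ℝ) + 1) * M + ε / 2) := by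
      rw [← Real.rpow_add hm0]
      congr 1
      ring
    rw [mul_pow, mul_inv, h2, Real.mul_rpow (by positivity) hm0.le]
    calc C * ((2 * R) ^ (1 + ε / 2) * m ^ (1 + ε / 2) *
          ((b ^ (d + 1))⁻¹ * m ^ (-(((d : ℝ) + 1) * M)))) =
        C * ((2 * R) ^ (1 + ε / 2) * (b ^ (d + 1))⁻¹) *
          (m ^ (1 + ε / 2) * m ^ (-(((d : ℝ) + 1) * M))) := by ring
      _ = C * ((2 * R) ^ (1 + ε / 2) * (b ^ (d + 1))⁻¹) *
          m ^ (1 - ((d : ℝ) + 1) * M + ε / 2) := by rw [e]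
      _ ≤ _ := mul_le_mul_of_nonneg_left (Real.rpow_le_rpow hm0.le hmX (by linarith))
          (by positivity)
  have h1 : (F.card : ℝ) ≤ ∑ j ∈ range (J + 1), ((F2 j).card : ℝ) := by
    exact_mod_cast (card_le_card hcov).trans card_biUnion_le
  have h2 : ∑ j ∈ range (J + 1), ((F2 j).card : ℝ) ≤
      ((J : ℝ) + 1) * (C * ((2 * R) ^ (1 + ε / 2) * (b ^ (d + 1))⁻¹) *
        X ^ (1 - ((d : ℝ) + 1) * M + ε / 2)) := by
    refine (Finset.sum_le_sum e2).trans (le_of_eq ?_)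
    rw [sum_const, card_range, nsmul_eq_mul]
    push_cast
    ring
  calc (F.card : ℝ) ≤ ((J : ℝ) + 1) * (C * ((2 * R) ^ (1 + ε / 2) * (b ^ (d + 1))⁻¹) *
        X ^ (1 - ((d : ℝ) + 1) * M + ε / 2)) := h1.trans h2
    _ ≤ (G * X ^ (ε / 2)) * (C * ((2 * R) ^ (1 + ε / 2) * (b ^ (d + 1))⁻¹) *
        X ^ (1 - ((d : ℝ) + 1) * M + ε / 2)) := by gcongr
    _ = _ := by
        have e : X ^ (1 - ((d : ℝ) + 1) * M + ε) =
            X ^ (1 - ((d : ℝ) + 1) * M + ε / 2) * X ^ (ε / 2) := by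
          rw [← Real.rpow_add hX0]
          congr 1
          ring
        rw [e]
        ring

end Pool.Agent.K1H71.PL
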